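import Pool.Agent.Lib.MP_af5b7f_an.P.Good
import Pool.Agent.Lib.MP_af5b7f_an.R.Final

/-! The radial sequence with a peak at the origin. -/

set_option autoImplicit false

open Filter Topology MeasureTheory Set
open scoped ContDiff

noncomputable section

namespace Pool.Agent.Lib.MP_af5b7f_an.P

open R

lemma beta_int (b : ℕ) : ∀ a : ℕ, ∫ t in (0 : ℝ)..1, t ^ a * (1 - t) ^ b =
    a.factorial * b.factorial / (a + b + 1).factorial := by
  induction b with
  | zero =>
    intro a
    simp only [pow_zero, mul_one, integral_pow, one_pow, Nat.factorial_succ, add_zero]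
    push_cast [Nat.factorial_zero]
    field_simp
    simp
  | succ b ih =>
    intro a
    have e : ∀ t : ℝ, t ^ a * (1 - t) ^ (b + 1) = t ^ a * (1 - t) ^ b - t ^ (a + 1) * (1 - t) ^ b :=
      fun t => by ring
    simp only [e]
    rw [intervalIntegral.integral_sub (Continuous.intervalIntegrable (by fun_prop) _ _)
      (Continuous.intervalIntegrable (by fun_prop) _ _), ih, ih,
      show a + 1 + b + 1 = a + b + 1 + 1 by ring, show a + (b + 1) + 1 = a + b + 1 + 1 by ring,
      Nat.factorial_succ (a + b + 1), Nat.factorial_succ a, Nat.factorial_succ b]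
    push_cast
    field_simp
    ring

/-- the density of the round metric -/
def bub (j : ℕ) (s : ℝ) : ℝ := (2 / (1 + |s|)) ^ (2 * (j + 1))

lemma cont_bub (j : ℕ) : Continuous (bub j) :=
  (continuous_const.div (by fun_prop) fun s => by positivity).pow _

lemma exists_radius (j : ℕ) {m : ℝ} (h : om j * m < 1) :
    ∃ R : ℝ, 0 < R ∧ m < (2 * j + 1).factorial * mass j (bub j) 0 (R ^ 2) := by
  have c : Continuous fun t : ℝ => t ^ j * (1 - t) ^ j := by fun_prop
  have c1 : Continuous fun x : ℝ => ((2 * j + 1).factorial : ℝ) *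
      (4 ^ (j + 1) * ∫ t in (0 : ℝ)..x, t ^ j * (1 - t) ^ j) :=
    continuous_const.mul (continuous_const.mul (continuous_iff_continuousAt.2 fun x =>
      (c.integral_hasStrictDerivAt 0 x).hasDerivAt.continuousAt))
  have h1 : m < ((2 * j + 1).factorial : ℝ) *
      (4 ^ (j + 1) * ∫ t in (0 : ℝ)..1, t ^ j * (1 - t) ^ j) := by
    rw [om, one_div, inv_mul_lt_iff₀ (by positivity)] at h
    rw [beta_int, show j + j + 1 = 2 * j + 1 by ring]
    refine h.trans_eq ?_
    field_simp
  obtain ⟨x, h2, x0, x1⟩ := (((c1.continuousAt.eventually_const_lt h1).filter_mono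
    nhdsWithin_le_nhds).and (Ioo_mem_nhdsLT (show (0 : ℝ) < 1 by norm_num))).exists
  have x2 := sub_pos.2 x1
  have ρ0 : 0 < x / (1 - x) := by positivity
  refine ⟨√(x / (1 - x)), Real.sqrt_pos.2 ρ0, h2.trans_eq ?_⟩
  have p : ∀ s ∈ uIcc 0 (x / (1 - x)), 0 ≤ s := fun s hs => by
    rw [uIcc_of_le ρ0.le] at hs; exact hs.1
  have h3 := intervalIntegral.integral_comp_mul_deriv (a := 0) (b := x / (1 - x))
    (f := fun s => s / (1 + s)) (f' := fun s => 1 / (1 + s) ^ 2)
    (fun s hs => by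
      have := p s hs
      refine ((hasDerivAt_id' s).fun_div ((hasDerivAt_id' s).const_add 1)
        (by positivity)).congr_deriv (by ring))
    (continuousOn_const.div (by fun_prop) fun s hs => by have := p s hs; positivity) c
  rw [show x / (1 - x) / (1 + x / (1 - x)) = x by field_simp; ring, zero_div] at h3
  rw [Real.sq_sqrt ρ0.le, ← h3, mass, ← intervalIntegral.integral_const_mul]
  congr 1
  refine intervalIntegral.integral_congr fun s hs => ?_
  have := p s hs
  simp only [Function.comp, bub, abs_of_nonneg this]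
  rw [show 1 - s / (1 + s) = 1 / (1 + s) by field_simp; ring, show (4 : ℝ) = 2 ^ 2 by norm_num,
    ← pow_mul]
  have q : 1 + s ≠ 0 := by positivity
  generalize 1 + s = q at *
  simp only [div_pow, one_pow]
  field_simp
  ring

variable {E : Type} [NormedAddCommGroup E] [InnerProductSpace ℝ E] [FiniteDimensional ℝ E]

lemma lap_K {j : ℕ} (hE : Module.finrank ℝ E = 2 * (j + 1)) {g : ℝ → ℝ} (hg : ContDiff ℝ ∞ g) :
    (Laplacian.laplacian (lift (K j g) : E → ℝ) : E → ℝ) = fun x => -1 * lift g x := by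
  have h1 := contDiff_lift (E := E) (contDiff_T j hg)
  rw [show (lift (K j g) : E → ℝ) = fun x => T j g 4 + -1 * lift (T j g) x from
      funext fun x => by simp only [lift, K]; ring,
    lap_add contDiff_const (contDiff_const.mul h1), lap_mul _ h1, lap_T hE hg,
    show (Laplacian.laplacian fun _ : E => T j g 4 : E → ℝ) = fun _ => 0 from
      lapPow_deg 1 ((deg_const _).mono (by norm_num))]
  simp only [zero_add]

lemma lapPow_K {j : ℕ} (hE : Module.finrank ℝ E = 2 * (j + 1)) {g : ℝ → ℝ} (hg : ContDiff ℝ ∞ g)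
    (k : ℕ) : lapPow k (lift ((K j)^[k] g) : E → ℝ) = fun x => (-1) ^ k * lift g x := by
  induction k with
  | zero => funext x; simp [lapPow_zero]
  | succ k ih =>
    rw [lapPow_succ, Function.iterate_succ_apply', lap_K hE (smooth_iter k hg),
      lapPow_mul _ _ (contDiff_lift (smooth_iter k hg)), ih]
    funext x
    ring

lemma deg_pp : Deg 7 (lift pp : E → ℝ) :=
  deg_sq.mul (Deg.sub ((deg_const 1).mono (by norm_num)) deg_sq).sq

lemma Fine.contDiff {j : ℕ} {m η B : ℝ} {U g : ℝ → ℝ} (h : Fine j m η B U g) : ContDiff ℝ ∞ U := by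
  obtain ⟨γ, c₀, rfl⟩ := h.form
  have h1 := smooth_pp
  have h2 := smooth_iter (j := j) (j + 1) h.smooth
  fun_prop

lemma Fine.eqn {j : ℕ} (hj : 3 ≤ j) (hE : Module.finrank ℝ E = 2 * (j + 1)) {m η B : ℝ}
    {U g : ℝ → ℝ} (h : Fine j m η B U g) (x : E) :
    (-1) ^ (j + 1) * lapPow (j + 1) (lift U : E → ℝ) x = g (‖x‖ ^ 2) := by
  obtain ⟨γ, c₀, rfl⟩ := h.form
  have h1 : Deg 7 (fun z : E => -B * lift pp z - γ * ‖z‖ ^ 2 + c₀) :=
    ((deg_pp.const_mul (-B)).sub ((deg_sq.const_mul γ).mono (by norm_num))).add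
      ((deg_const c₀).mono (by norm_num))
  have h3 := lapPow_add (j + 1) h1.contDiff
    (contDiff_lift (E := E) (smooth_iter (j := j) (j + 1) h.smooth))
  rw [lapPow_K hE h.smooth, lapPow_deg _ (h1.mono (by omega))] at h3
  have h4 := congrFun h3 x
  change lapPow (j + 1) (lift fun s => -B * pp s - γ * s + c₀ + (K j)^[j + 1] g s) x = _ at h4
  rw [h4, zero_add, ← mul_assoc, ← mul_pow]
  simp [lift]

/-- the limit function -/
def ps (x : E) : ℝ := -(‖x‖ ^ 2 * (1 - ‖x‖ ^ 2) ^ 2)

omit [InnerProductSpace ℝ E] [FiniteDimensional ℝ E] in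
lemma ps_eq : (ps : E → ℝ) = fun x => -1 * lift pp x := by
  funext x
  simp only [ps, lift, pp]
  ring

omit [InnerProductSpace ℝ E] [FiniteDimensional ℝ E] in
lemma zeroSet_ps : zeroSet (Metric.ball (0 : E) 2) {0} ps = Metric.sphere 0 1 := by
  rw [← zeroSet_eq]
  ext x
  simp [zeroSet, ps, ph]

lemma memK_ps {j : ℕ} (hj : 3 ≤ j) (hE : Module.finrank ℝ E = 2 * (j + 1)) :
    MemK (j + 1) (Metric.ball (0 : E) 2) {0} ps := by
  have : Nontrivial E := Module.nontrivial_of_finrank_pos (R := ℝ) (by omega)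
  have hd : Deg 7 (ps : E → ℝ) := ps_eq (E := E) ▸ deg_pp.const_mul (-1)
  obtain ⟨e, he⟩ := exists_norm_eq E (show (0 : ℝ) ≤ 1 / 2 by norm_num)
  refine ⟨hd.contDiff.contDiffOn, fun x _ => neg_nonpos.2 (by positivity),
    ⟨e, ⟨by rw [mem_ball_zero_iff, he]; norm_num, fun h => ?_⟩, by rw [ps, he]; norm_num⟩,
    fun x _ => by rw [lapPow_deg _ (hd.mono (by omega))]⟩
  rw [mem_singleton_iff.1 h] at he
  norm_num at he

section Seq

variable {j : ℕ} {m : ℝ} {B : ℕ → ℝ} {U f : ℕ → ℝ → ℝ}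
  (h : ∀ k, Fine j m (ee k) (B k) (U k) (f k))

include h

lemma seq_holder {α : ℝ} (h0 : 0 ≤ α) (h1 : α ≤ 1) :
    TendstoCkHolder (2 * (j + 1) - 1) α (Metric.ball (0 : E) 2 \ ({0} ∪ Metric.sphere 0 1))
      (fun k x => lift (U k) x / B k) ps := by
  obtain ⟨C, hC, hb⟩ := lift_bound (E := E) (2 * (j + 1))
  refine holder_of (Metric.isOpen_ball.sdiff (isClosed_singleton.union Metric.isClosed_sphere))
    (fun k => (contDiff_lift (h k).contDiff).div_const _)
    (ps_eq (E := E) ▸ (deg_pp.const_mul (-1)).contDiff) _ (fun Q hKO hK η hη => ?_) h0 h1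
  obtain ⟨d, hd, hdK⟩ := hK.exists_forall_le' (f := fun x : E => min (‖x‖ ^ 2) |‖x‖ ^ 2 - 1|)
    (a := 0) (Continuous.continuousOn (by fun_prop)) fun x hx => by
      have := (hKO hx).2
      simp only [mem_union, mem_singleton_iff, not_or, mem_sphere_zero_iff_norm] at this
      refine lt_min (pow_pos (norm_pos_iff.2 this.1) _) (abs_pos.2 fun h0 => this.2 ?_)
      nlinarith [norm_nonneg x]
  filter_upwards [ee_mul_lt 1 hd, ee_mul_lt C hη] with k k1 k2 x hx i hi
  have hx2 : ‖x‖ ≤ 2 := (mem_ball_zero_iff.1 (hKO hx).1).le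
  have h3 := le_min_iff.1 (hdK x hx)
  have e : (fun x : E => lift (U k) x / B k - ps x) = lift fun s => U k s / B k + pp s := by
    funext x
    rw [ps_eq]
    simp only [lift]
    ring
  rw [e]
  exact (hb _ (ee k) x (((h k).contDiff.div_const _).add smooth_pp) hx2 (fun l hl => (h k).der _
    ⟨by linarith [h3.1], (sq_mem hx2).2⟩ (by linarith [h3.2]) l hl) i (by omega)).trans k2.le

variable [MeasurableSpace E] [BorelSpace E] (hE : Module.finrank ℝ E = 2 * (j + 1))
  {κ : ℝ} (hκ : (j + 1) * volume.real (Metric.ball (0 : E) 1) = κ)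

omit [MeasurableSpace E] [BorelSpace E] [InnerProductSpace ℝ E] [FiniteDimensional ℝ E] in
lemma cont_f (k : ℕ) : Continuous fun x : E => f k (‖x‖ ^ 2) :=
  (h k).smooth.continuous.comp (by fun_prop)

lemma int_f (k : ℕ) : IntegrableOn (fun x : E => f k (‖x‖ ^ 2)) (Metric.ball 0 2) :=
  ((cont_f h k).continuousOn.integrableOn_compact (isCompact_closedBall (0 : E) 2)).mono_set
    Metric.ball_subset_closedBall

include hE hκ

lemma seq_solution (hj : 3 ≤ j) : IsSolutionSeq (j + 1) (Metric.ball (0 : E) 2)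
    (fun k => lift (U k)) (VV (j + 1) U f) (fun _ => 1) := by
  have hc : ∀ k, Continuous (lift (U k) : E → ℝ) := fun k =>
    (contDiff_lift (h k).contDiff).continuous
  have hi : ∀ k, IntegrableOn (fun x : E => Real.exp (2 * ((j + 1 : ℕ) : ℝ) * lift (U k) x))
      (Metric.ball (0 : E) 2) := fun k =>
    (ContinuousOn.integrableOn_compact (isCompact_closedBall (0 : E) 2)
      (Continuous.continuousOn (by have := hc k; fun_prop))).mono_set Metric.ball_subset_closedBall
  refine ⟨fun k => ((contDiff_lift (h k).contDiff).of_le (nat_le_infty _)).contDiffOn, fun k => ?_,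
    fun k x _ => by rw [VV_mul, (h k).eqn hj hE], hi, ⟨3 * (κ * (m + 1)), fun k => ?_⟩, ?_,
    continuousOn_const, fun _ _ => one_pos⟩
  · have h1 := (h k).contDiff.continuous
    have h2 := (h k).smooth.continuous
    unfold VV
    fun_prop
  · have h2 := ee_le k
    have κ0 : 0 ≤ κ := hκ ▸ by positivity
    refine (setIntegral_mono_on (hi k) ((int_f h k).const_mul 3) measurableSet_ball
      fun x hx => ?_).trans ?_
    · have h1 := (abs_le.1 ((h k).log _ (sq_mem (mem_ball_zero_iff.1 hx).le))).1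
      calc Real.exp (2 * ((j + 1 : ℕ) : ℝ) * lift (U k) x)
          ≤ Real.exp (1 + Real.log (f k (‖x‖ ^ 2))) :=
            Real.exp_le_exp.2 (by unfold lift; unfold cj at h1; linarith)
        _ = Real.exp 1 * f k (‖x‖ ^ 2) := by rw [Real.exp_add, Real.exp_log ((h k).pos _)]
        _ ≤ 3 * f k (‖x‖ ^ 2) :=
            mul_le_mul_of_nonneg_right Real.exp_one_lt_three.le ((h k).pos _).le
    · rw [integral_const_mul, polar hE (h k).smooth.continuous (by norm_num), hκ,
        show (2 : ℝ) ^ 2 = 4 by norm_num]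
      gcongr
      linarith [(abs_le.1 (h k).total).2]
  · refine TendstoUniformlyOn.tendstoLocallyUniformlyOn (Metric.tendstoUniformlyOn_iff.2
      fun η hη => ?_)
    filter_upwards [ee_mul_lt 2 hη] with k hk x hx
    have h1 := (h k).log _ (sq_mem (mem_ball_zero_iff.1 hx).le)
    have h5 := Real.abs_exp_sub_one_le (h1.trans (by linarith [ee_le k]))
    rw [sub_eq_add_neg (Real.log _), Real.exp_add, Real.exp_log ((h k).pos _),
      ← sub_eq_add_neg (Real.log _)] at h5
    rw [Real.dist_eq, abs_sub_comm, VV]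
    unfold cj at h1 h5
    linarith

lemma mass_tendsto {r : ℝ} (hr : 0 < r) (hr2 : r ≤ 2) :
    Tendsto (fun k => ∫ x in Metric.ball (0 : E) r, f k (‖x‖ ^ 2)) atTop (𝓝 (κ * m)) := by
  have h4 : r ^ 2 ≤ 4 := by nlinarith
  have h0 : Tendsto (fun k => mass j (f k) (r ^ 2) 4) atTop (𝓝 0) := by
    refine squeeze_zero' (Eventually.of_forall fun k =>
      mass_nonneg j (fun s => ((h k).pos s).le) (by positivity) h4) ?_ ee_tendsto
    filter_upwards [ee_mul_lt 1 (pow_pos hr 2)] with k hk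
    exact (mass_mono j (h k).smooth.continuous (fun s => ((h k).pos s).le)
      (ee_pos k).le (by linarith) h4 le_rfl).trans (h k).tail
  have h2 : Tendsto (fun k => mass j (f k) 0 4) atTop (𝓝 m) :=
    tendsto_iff_norm_sub_tendsto_zero.2
      (squeeze_zero (fun _ => norm_nonneg _) (fun k => (h k).total) ee_tendsto)
  have h1 := (h2.sub h0).const_mul κ
  rw [sub_zero] at h1
  refine h1.congr fun k => ?_
  rw [polar hE (h k).smooth.continuous hr.le, hκ,
    ← mass_add j (h k).smooth.continuous 0 (r ^ 2) 4, add_sub_cancel_right]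

lemma seq_concSet (hΛ : lambdaOne (j + 1) / 2 ≤ κ * m) :
    concSet (j + 1) (Metric.ball (0 : E) 2) (fun k => lift (U k)) (VV (j + 1) U f) = {0} := by
  have small : ∀ {d : ℝ}, 0 < d → ∀ᶠ r in 𝓝[>] (0 : ℝ), r ≤ d := fun hd =>
    (eventually_le_nhds hd).filter_mono nhdsWithin_le_nhds
  have hL0 := lambdaOne_pos (j + 1)
  ext x
  simp only [concSet, VV_mul]
  constructor
  · rintro ⟨hx, L, hL, hT⟩
    by_contra hx0
    have hx1 : 0 < ‖x‖ := norm_pos_iff.2 hx0
    have hx2 : ‖x‖ < 2 := mem_ball_zero_iff.1 hx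
    have : L = 0 := by
      refine tendsto_nhds_unique hT (tendsto_const_nhds.congr' ?_)
      filter_upwards [small (half_pos hx1), small (sub_pos.2 hx2)] with r hr1 hr2
      have h1 := (mass_tendsto h hE hκ two_pos le_rfl).sub
        (mass_tendsto h hE hκ (half_pos hx1) (by linarith))
      rw [sub_self] at h1
      refine (Tendsto.liminf_eq (squeeze_zero
        (fun k => integral_nonneg fun y => ((h k).pos _).le) (fun k => ?_) h1)).symm
      rw [← setIntegral_sdiff measurableSet_ball (int_f h k)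
        (Metric.ball_subset_ball (by linarith))]
      refine setIntegral_mono_set ((int_f h k).mono_set sdiff_subset)
        (Eventually.of_forall fun y => ((h k).pos _).le) (LE.le.eventuallyLE fun y hy => ?_)
      rw [mem_ball_iff_norm] at hy
      rw [Set.mem_sdiff, mem_ball_zero_iff, mem_ball_zero_iff, not_lt]
      have := norm_sub_norm_le x y
      rw [norm_sub_rev] at this
      exact ⟨by linarith [norm_sub_norm_le y x], by linarith⟩
    linarith
  · rintro rfl
    refine ⟨by simp, κ * m, hΛ, tendsto_const_nhds.congr' ?_⟩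
    filter_upwards [self_mem_nhdsWithin, small two_pos] with r hr hr2
    exact (mass_tendsto h hE hκ hr hr2).liminf_eq.symm

lemma seq_not_spherical (κ0 : 0 < κ) (hθ : om j * m < 1) :
    ¬ IsSpherical (j + 1) (fun k => (lift (U k) : E → ℝ)) 1 0 := by
  rintro ⟨σ, x, r, w, hσ, hw, hr, hx, hr0, hT⟩
  obtain ⟨R, R0, hR⟩ := exists_radius j hθ
  obtain ⟨N, eN⟩ : ∃ N : ℝ, N = (2 * j + 1).factorial := ⟨_, rfl⟩
  have N0 : 0 < N := by rw [eN]; positivity
  rw [← eN] at hR
  have c0' := cj_pos (j := j)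
  obtain ⟨t, h1, t0⟩ := ((((by fun_prop : Continuous fun t : ℝ => κ * (Real.exp (-t) *
    (N * mass j (bub j) 0 (R ^ 2)))).continuousAt (x := 0)).eventually_const_lt
      (u := κ * m) (by simpa using mul_lt_mul_of_pos_left hR κ0)).filter_mono
      nhdsWithin_le_nhds |>.and (self_mem_nhdsWithin (s := Ioi 0))).exists
  replace t0 : 0 < t := t0
  have h2 := Metric.tendstoUniformlyOn_iff.1 (hT _ (subset_univ _) (isCompact_closedBall 0 R) 0
    (Nat.zero_le _)) (t / 2 / cj j) (by positivity)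
  have h3 := hr0.mul_const R
  rw [zero_mul] at h3
  obtain ⟨k, ⟨k1, k2⟩, ⟨k3, k4⟩, k5⟩ := ((h2.and (((mass_tendsto h hE hκ two_pos le_rfl).comp
    hσ.tendsto_atTop).eventually_lt_const h1)).and
    (((hx.norm.eventually_le_const (show ‖(0 : E)‖ < 1 by simp)).and
      (h3.eventually_le_const one_pos)).and
      ((ee_tendsto.comp hσ.tendsto_atTop).eventually_le_const (half_pos t0)))).exists
  have r0 : 0 < r k := by rw [hr]; positivity
  have cF := cont_f (E := E) h (σ k)
  have a1 := Measure.setIntegral_comp_smul_of_pos volume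
    (fun y : E => f (σ k) (‖x k + y‖ ^ 2)) (Metric.ball 0 R) r0
  have a2 := (measurePreserving_add_left volume (x k)).setIntegral_preimage_emb
    (measurableEmbedding_addLeft _) (fun y : E => f (σ k) (‖y‖ ^ 2)) (Metric.ball (x k) (r k * R))
  rw [show (fun y => x k + y) ⁻¹' Metric.ball (x k) (r k * R) = Metric.ball 0 (r k * R) by
    ext y; simp] at a2
  rw [smul_ball r0.ne', smul_zero, Real.norm_of_nonneg r0.le, a2, hE, smul_eq_mul,
    eq_inv_mul_iff_mul_eq₀ (pow_pos r0 _).ne', ← integral_const_mul] at a1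
  have a3 := setIntegral_mono_set (s := Metric.ball (x k) (r k * R)) (int_f h (σ k))
    (Eventually.of_forall fun y => ((h (σ k)).pos _).le) (LE.le.eventuallyLE fun y hy => by
      rw [mem_ball_iff_norm] at hy
      rw [mem_ball_zero_iff]
      linarith [norm_sub_norm_le y (x k)])
  have ib : ∀ {F : E → ℝ}, Continuous F → IntegrableOn F (Metric.ball 0 R) := fun hF =>
    (hF.continuousOn.integrableOn_compact (isCompact_closedBall (0 : E) R)).mono_set
      Metric.ball_subset_closedBall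
  have cb : Continuous fun y : E => bub j (‖y‖ ^ 2) := (cont_bub j).comp (by fun_prop)
  have a4 := setIntegral_mono_on (ib (continuous_const.mul cb))
    (ib (continuous_const.mul (cF.comp (show Continuous fun y : E => x k + r k • y by fun_prop))))
    measurableSet_ball fun y hy => (show Real.exp (-t) * N * bub j (‖y‖ ^ 2) ≤
      r k ^ (2 * (j + 1)) * f (σ k) (‖x k + r k • y‖ ^ 2) by
      have b1 := k1 y (Metric.ball_subset_closedBall hy)
      rw [iteratedFDeriv_zero_eq_comp, iteratedFDeriv_zero_eq_comp, Function.comp, Function.comp,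
        LinearIsometryEquiv.dist_map, Real.dist_eq] at b1
      replace b1 := (abs_lt.1 b1).2
      simp only [hw, one_div, Real.log_inv, show 2 * (j + 1) - 1 = 2 * j + 1 by omega, ← eN] at b1
      rw [lt_div_iff₀' c0'] at b1
      have b2 : ‖x k + r k • y‖ ≤ 2 := by
        refine (norm_add_le _ _).trans ?_
        rw [norm_smul, Real.norm_of_nonneg r0.le]
        linarith [mul_le_mul_of_nonneg_left (mem_ball_zero_iff.1 hy).le r0.le]
      have b3 := (abs_le.1 ((h (σ k)).log _ (sq_mem b2))).1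
      have b4 : cj j * (cj j)⁻¹ = 1 := mul_inv_cancel₀ c0'.ne'
      have p1 : 0 < 2 / (1 + ‖y‖ ^ 2) := by positivity
      change cj j * (_ - (U (σ k) (‖x k + r k • y‖ ^ 2) + (cj j)⁻¹ * _ + _)) < _ at b1
      rw [← Real.log_le_log_iff (by unfold bub; positivity) (mul_pos (pow_pos r0 _)
        ((h (σ k)).pos _)), Real.log_mul (by positivity) (by unfold bub; positivity),
        Real.log_mul (by positivity) N0.ne', Real.log_exp, Real.log_mul (pow_pos r0 _).ne'
        ((h (σ k)).pos _).ne', bub, Real.log_pow, Real.log_pow, abs_of_nonneg (sq_nonneg _),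
        show ((2 * (j + 1) : ℕ) : ℝ) = cj j by unfold cj; push_cast; ring]
      simp only [Function.comp] at k5
      linear_combination b1.le + b3 + k5 - Real.log N * b4)
  simp only [Pi.mul_apply, Function.comp] at a4 k2
  rw [integral_const_mul, polar hE (cont_bub j) R0.le, hκ] at a4
  linarith

end Seq

lemma lambdaOne_eq (j : ℕ) :
    lambdaOne (j + 1) * om j = (j + 1) * (Real.pi ^ (j + 1) / (j + 1).factorial) := by
  have h3 : √Real.pi ≠ 0 := (Real.sqrt_pos.2 Real.pi_pos).ne'
  have h4 : (((2 * j + 1).doubleFactorial : ℕ) : ℝ) ≠ 0 := by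
    exact_mod_cast (Nat.doubleFactorial_pos _).ne'
  rw [lambdaOne, show (2 * ((j + 1 : ℕ) : ℝ) + 1) / 2 = (j + 1 : ℕ) + 1 / 2 by ring,
    Real.Gamma_nat_add_half, Real.rpow_add Real.pi_pos, Real.rpow_natCast, ← Real.sqrt_eq_rpow,
    show 2 * (j + 1) - 1 = 2 * j + 1 by omega, Nat.factorial_eq_mul_doubleFactorial,
    Nat.doubleFactorial_two_mul, om, Nat.factorial_succ, show (4 : ℝ) = 2 * 2 by norm_num, mul_pow]
  push_cast
  field_simp
  ring

theorem peak (n : ℕ) (hn : 4 ≤ n) (Λ : ℝ) (hΛ : lambdaOne n / 2 ≤ Λ) (hΛ' : Λ < lambdaOne n) :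
    ∃ (u V : ℕ → EuclideanSpace ℝ (Fin (2 * n)) → ℝ) (β : ℕ → ℝ),
      IsSolutionSeq n (Metric.ball 0 2) u V (fun _ => 1) ∧
      (∀ k x y, ‖x‖ = ‖y‖ → u k x = u k y ∧ V k x = V k y) ∧ (∀ k x, 0 < V k x) ∧
      IsBlowUp n (Metric.ball 0 2) u V (fun x => -(‖x‖ ^ 2 * (1 - ‖x‖ ^ 2) ^ 2)) β ∧
      concSet n (Metric.ball 0 2) u V = {0} ∧
      zeroSet (Metric.ball 0 2) (concSet n (Metric.ball 0 2) u V)
        (fun x => -(‖x‖ ^ 2 * (1 - ‖x‖ ^ 2) ^ 2)) = Metric.sphere 0 1 ∧
      (∀ x ∈ Metric.sphere 0 1, Tendsto (fun k => u k x) atTop atTop) ∧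
      Tendsto (fun k => u k 0) atTop atTop ∧ (∀ k x, ‖x‖ ≤ 1 / 2 → u k x ≤ u k 0) ∧
      (∀ r : ℝ, 0 < r → r ≤ 2 → Tendsto
        (fun k => ∫ y in Metric.ball 0 r, V k y * Real.exp (2 * n * u k y)) atTop (𝓝 Λ)) ∧
      ¬ IsSpherical n u 1 0 := by
  obtain ⟨j, rfl⟩ : ∃ j, n = j + 1 := ⟨n - 1, by omega⟩
  have hj : 3 ≤ j := by omega
  have hE : Module.finrank ℝ (EuclideanSpace ℝ (Fin (2 * (j + 1)))) = 2 * (j + 1) := by simp
  have : Nontrivial (EuclideanSpace ℝ (Fin (2 * (j + 1)))) :=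
    Module.nontrivial_of_finrank_pos (R := ℝ) (by omega)
  obtain ⟨κ, hκ⟩ : ∃ κ : ℝ, (j + 1) *
    volume.real (Metric.ball (0 : EuclideanSpace ℝ (Fin (2 * (j + 1)))) 1) = κ := ⟨_, rfl⟩
  have eκ : lambdaOne (j + 1) * om j = κ := by
    rw [lambdaOne_eq, ← hκ, Measure.real, InnerProductSpace.volume_ball_of_dim_even hE,
      ENNReal.ofReal_one, one_pow, one_mul, ENNReal.toReal_ofReal (by positivity)]
  have hκ0 : 0 < κ := eκ ▸ mul_pos (lambdaOne_pos _) om_pos
  have hm : κ * (Λ / κ) = Λ := mul_div_cancel₀ _ hκ0.ne'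
  have hΛ0 : 0 < Λ := (half_pos (lambdaOne_pos (j + 1))).trans_le hΛ
  have hθ : om j * (Λ / κ) < 1 := by
    rw [← mul_div_assoc, div_lt_one hκ0, ← eκ, mul_comm]
    exact mul_lt_mul_of_pos_right hΛ' om_pos
  choose B U f h using fun k => exists_fine (show 2 ≤ j by omega) (div_pos hΛ0 hκ0) hθ
    (ee_pos k) (by linarith [ee_le k])
  have hS := seq_concSet h hE hκ (hm.symm ▸ hΛ)
  refine ⟨fun k => lift (U k), VV (j + 1) U f, B, seq_solution h hE hκ hj,
    fun k x y e => by simp [lift, VV, e], fun k x => mul_pos ((h k).pos _) (Real.exp_pos _), ?_, hS,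
    hS ▸ zeroSet_ps, fun x hx => ?_, ?_, fun k x hx => ?_, fun r h1 h2 => ?_,
    seq_not_spherical h hE hκ hκ0 hθ⟩
  · unfold IsBlowUp
    rw [hS]
    refine ⟨finite_singleton _, memK_ps hj hE,
      tendsto_atTop_mono (fun k => (h k).hB) ee_inv_tendsto, fun α h0 h1 => ?_⟩
    have := seq_holder (E := EuclideanSpace ℝ (Fin (2 * (j + 1)))) h h0 h1.le
    rw [← zeroSet_ps] at this
    exact this
  · refine tendsto_atTop_mono (fun k => ?_) ee_inv_tendsto
    simp only [lift, mem_sphere_zero_iff_norm.1 hx, one_pow]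
    exact (h k).one
  · exact tendsto_atTop_mono (fun k => by simpa [lift] using (h k).zero) ee_inv_tendsto
  · simpa [lift] using (h k).top (‖x‖ ^ 2) ⟨by positivity, by nlinarith [norm_nonneg x]⟩
  · simp only [VV_mul]
    exact hm ▸ mass_tendsto h hE hκ h1 h2

end Pool.Agent.Lib.MP_af5b7f_an.P
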