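import Pool.Agent.Lib.MP_af5b7f_an.P.Var
import Pool.Agent.Lib.MP_af5b7f_an.R.Good

/-! One member of the sequence with a peak at the origin. -/

set_option autoImplicit false

open Filter Topology MeasureTheory Set
open scoped ContDiff

noncomputable section

namespace Pool.Agent.Lib.MP_af5b7f_an.P

open R

/-- the polynomial -/
def pp (s : ℝ) : ℝ := s * (1 - s) ^ 2

lemma smooth_pp : ContDiff ℝ ∞ pp := by unfold pp; fun_prop

/-- The properties of one member of the sequence. -/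
structure Fine (j : ℕ) (m η B : ℝ) (U g : ℝ → ℝ) : Prop where
  hB : η⁻¹ ≤ B
  smooth : ContDiff ℝ ∞ g
  form : ∃ γ c₀ : ℝ, U = fun s => -B * pp s - γ * s + c₀ + (K j)^[j + 1] g s
  pos : ∀ s, 0 < g s
  total : |mass j g 0 4 - m| ≤ η
  tail : mass j g η 4 ≤ η
  log : ∀ s ∈ Icc (0 : ℝ) 4, |Real.log (g s) - cj j * U s| ≤ η
  der : ∀ s ∈ Icc η 4, η ≤ |s - 1| → ∀ i ≤ 2 * (j + 1),
    |iteratedDeriv i (fun s => U s / B + pp s) s| ≤ η
  one : η⁻¹ ≤ U 1
  zero : η⁻¹ ≤ U 0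
  top : ∀ s ∈ Icc (0 : ℝ) (1 / 2), U s ≤ U 0

lemma shell {F M : ℝ → ℝ} (hF : ∀ u v, IntervalIntegrable F volume u v)
    (hM : ∀ u v, IntervalIntegrable M volume u v) {N ρ : ℝ} (h0 : 0 ≤ ρ) (h1 : ρ ≤ 1 / 2)
    (hM0 : ∀ s ∈ Icc (0 : ℝ) 4, 0 ≤ M s) (h2 : ∀ s ∈ Icc (0 : ℝ) 4, ρ ≤ |s - 1| → F s ≤ M s)
    (h3 : ∀ s ∈ Icc (1 / 2 : ℝ) 4, F s ≤ N) :
    ∫ s in (0 : ℝ)..4, F s ≤ (∫ s in (0 : ℝ)..4, M s) + N * (2 * ρ) := by
  have a1 := intervalIntegral.integral_mono_on (a := 0) (b := 1 - ρ) (by linarith) (hF _ _) (hM _ _)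
    fun s hs => h2 s ⟨hs.1, by linarith [hs.2]⟩ (le_abs.2 (Or.inr (by linarith [hs.2])))
  have a2 := intervalIntegral.integral_mono_on (a := 1 + ρ) (b := 4) (by linarith) (hF _ _) (hM _ _)
    fun s hs => h2 s ⟨by linarith [hs.1], hs.2⟩ (le_abs.2 (Or.inl (by linarith [hs.1])))
  have a3 := intervalIntegral.integral_mono_on (a := 1 - ρ) (b := 1 + ρ) (by linarith) (hF _ _)
    (intervalIntegrable_const (c := N)) fun s hs => h3 s ⟨by linarith [hs.1], by linarith [hs.2]⟩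
  have a4 := intervalIntegral.integral_nonneg (μ := volume) (a := 1 - ρ) (b := 1 + ρ) (f := M)
    (by linarith) fun s hs => hM0 s ⟨by linarith [hs.1], by linarith [hs.2]⟩
  rw [intervalIntegral.integral_const, smul_eq_mul] at a3
  linarith [intervalIntegral.integral_add_adjacent_intervals (hF 0 (1 - ρ)) (hF _ (1 + ρ)),
    intervalIntegral.integral_add_adjacent_intervals (hF 0 (1 + ρ)) (hF _ 4),
    intervalIntegral.integral_add_adjacent_intervals (hM 0 (1 - ρ)) (hM _ (1 + ρ)),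
    intervalIntegral.integral_add_adjacent_intervals (hM 0 (1 + ρ)) (hM _ 4)]

lemma log_le_three {s : ℝ} (hs : s ∈ Icc (1 / 2 : ℝ) 4) : Real.log (4 / s) ≤ 3 := by
  have s0 : 0 < s := by linarith [hs.1]
  have h1 := Real.log_le_log (show 0 < 4 / s by positivity) (show 4 / s ≤ 2 ^ 3 by
    rw [div_le_iff₀ s0]; linarith [hs.1])
  rw [Real.log_pow] at h1
  push_cast at h1
  linarith [Real.log_two_lt_d9]

lemma shell_bound {j : ℕ} (hj : 1 ≤ j) {h f : ℝ → ℝ} (hh : Continuous h) (hf : Continuous f)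
    (f0 : ∀ s, 0 ≤ f s) {δ τ S ρ : ℝ} (δ0 : 0 ≤ δ) (τ0 : 0 ≤ τ) (S0 : 0 ≤ S) (h0 : 0 ≤ ρ)
    (h1 : ρ ≤ 1 / 2) (h2 : ∀ s ∈ Icc (0 : ℝ) 4, ρ ≤ |s - 1| → h s ≤ δ * f s + τ)
    (h3 : ∀ s ∈ Icc (1 / 2 : ℝ) 4, h s ≤ S) :
    mass j h 0 4 ≤ δ * mass j f 0 4 + τ * mass j (fun _ => 1) 0 4 + 4 ^ j * (S * 3) * (2 * ρ) ∧
      ell j h ≤ δ * ell j f + τ * ell j (fun _ => 1) + 4 ^ j * (S * 3) * (2 * ρ) := by
  have p0 : ∀ s, 0 ≤ δ * f s + τ := fun s => add_nonneg (mul_nonneg δ0 (f0 s)) τ0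
  have q : ∀ s ∈ Icc (1 / 2 : ℝ) 4, ∀ x, x ≤ S * 3 → s ^ j * x ≤ 4 ^ j * (S * 3) := fun s hs x hx =>
    have s0 : 0 ≤ s := by linarith [hs.1]
    (mul_le_mul_of_nonneg_left hx (pow_nonneg s0 _)).trans (by gcongr; exact hs.2)
  constructor
  · have := shell (F := fun s => s ^ j * h s) (M := fun s => s ^ j * (δ * f s + τ * 1))
      (fun _ _ => Continuous.intervalIntegrable (by fun_prop) _ _)
      (fun _ _ => Continuous.intervalIntegrable (by fun_prop) _ _) h0 h1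
      (fun s hs => mul_nonneg (pow_nonneg hs.1 _) (by simpa using p0 s))
      (fun s hs h => mul_le_mul_of_nonneg_left (by simpa using h2 s hs h) (pow_nonneg hs.1 _))
      fun s hs => q s hs _ (by linarith [h3 s hs])
    rw [← mass_smul, ← mass_smul, ← mass_plus (by fun_prop) (by fun_prop)]
    exact this
  · have i1 := fun u v => (int_ell hj hf u v).const_mul δ
    have i2 := fun u v => (int_ell (f := fun _ => 1) hj continuous_const u v).const_mul τ
    have := shell (int_ell hj hh) (fun u v => (i1 u v).add (i2 u v)) h0 h1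
      (fun s hs => by nlinarith [mul_nonneg (pow_nonneg hs.1 j) (mul_nonneg (p0 s) (log_nonneg' hs))])
      (fun s hs h => by
        nlinarith [mul_le_mul_of_nonneg_left (h2 s hs h)
          (mul_nonneg (pow_nonneg hs.1 j) (log_nonneg' hs))])
      fun s hs => q s hs _ (mul_le_mul (h3 s hs) (log_le_three hs)
        (log_nonneg' ⟨by linarith [hs.1], hs.2⟩) S0)
    rw [intervalIntegral.integral_add (i1 0 4) (i2 0 4), intervalIntegral.integral_const_mul,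
      intervalIntegral.integral_const_mul] at this
    exact this

lemma exp_tiny {c x z : ℝ} (hc : 1 ≤ c) (hz : 0 < z) (hx : x ≤ -z) : Real.exp (c * x) ≤ 1 / z := by
  refine (Real.exp_le_exp.2 (show c * x ≤ -z by nlinarith)).trans ?_
  rw [Real.exp_neg, one_div]
  exact inv_anti₀ hz (by linarith [Real.add_one_le_exp z])

section Point

variable {c z c₀ l s w : ℝ} (hc : 1 ≤ c) (hz : 16 ≤ z) (h0 : |c₀| ≤ z) (l0 : 0 ≤ l) (l1 : l ≤ z)
  (w1 : w ≤ z)

include hz h0 l0 l1 in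
lemma core (hcz : 4 * c ≤ z) (hc : 0 ≤ c) (s0 : 0 ≤ s) (hs : s ≤ 1 / z ^ 4) :
    |Real.exp (c * (w - z ^ 6 * pp s - (c₀ - l) * s + c₀)) - Real.exp (c * (w - z ^ 6 * s + c₀))| ≤
      8 * c / z ^ 2 * Real.exp (c * (w - z ^ 6 * s + c₀)) := by
  have z0 : 0 < z := by linarith
  have h1 : z ^ 4 * s ≤ 1 := by rwa [le_div_iff₀' (by positivity)] at hs
  have s1 : s ≤ 1 := hs.trans ((div_le_one (by positivity)).2 (one_le_pow₀ (by linarith)))
  have h2 : |z ^ 6 * (s - pp s)| ≤ 2 / z ^ 2 := by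
    rw [show s - pp s = s ^ 2 * (2 - s) by unfold pp; ring,
      abs_of_nonneg (mul_nonneg (by positivity) (mul_nonneg (by positivity) (by linarith))),
      le_div_iff₀ (by positivity)]
    calc _ = (z ^ 4 * s) ^ 2 * (2 - s) := by ring
      _ ≤ 1 ^ 2 * 2 := by gcongr <;> linarith
      _ = 2 := by norm_num
  have h3 : |(c₀ - l) * s| ≤ 2 / z ^ 2 := by
    have a1 : |c₀ - l| ≤ 2 * z := (abs_sub _ _).trans (by rw [abs_of_nonneg l0]; linarith)
    rw [abs_mul, abs_of_nonneg s0, le_div_iff₀ (by positivity)]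
    calc _ ≤ 2 * z * s * z ^ 2 := by gcongr
      _ = 2 * (z ^ 3 * s) := by ring
      _ ≤ 2 * (z ^ 4 * s) := by gcongr <;> linarith
      _ ≤ 2 := by linarith
  have h4 : |c * (z ^ 6 * (s - pp s) - (c₀ - l) * s)| ≤ 4 * c / z ^ 2 := by
    rw [abs_mul, abs_of_nonneg hc]
    exact (mul_le_mul_of_nonneg_left ((abs_sub _ _).trans (add_le_add h2 h3)) hc).trans_eq (by ring)
  have h5 := Real.abs_exp_sub_one_le (h4.trans ((div_le_one (by positivity)).2 (by nlinarith)))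
  rw [show c * (w - z ^ 6 * pp s - (c₀ - l) * s + c₀) = c * (z ^ 6 * (s - pp s) - (c₀ - l) * s) +
    c * (w - z ^ 6 * s + c₀) by ring, Real.exp_add, ← sub_one_mul, abs_mul,
    abs_of_pos (Real.exp_pos _)]
  have h6 : 8 * c / z ^ 2 = 2 * (4 * c / z ^ 2) := by ring
  exact mul_le_mul_of_nonneg_right (by linarith) (Real.exp_pos _).le

include hz in
lemma far (hs : 1 / z ^ 4 ≤ s) : z ^ 2 ≤ z ^ 6 * s := by
  have z0 : 0 < z := by linarith
  rw [div_le_iff₀ (by positivity)] at hs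
  nlinarith [mul_le_mul_of_nonneg_left hs (sq_nonneg z)]

include hc hz h0 w1 in
lemma f_tiny (hs : 1 / z ^ 4 ≤ s) : Real.exp (c * (w - z ^ 6 * s + c₀)) ≤ 1 / z :=
  exp_tiny hc (by linarith) (by nlinarith [far hz hs, (abs_le.1 h0).2])

include hc hz h0 l1 w1 in
lemma g_mid (hs : 1 / z ^ 4 ≤ s) (s1 : s ≤ 1 / 2) :
    Real.exp (c * (w - z ^ 6 * pp s - (c₀ - l) * s + c₀)) ≤ 1 / z := by
  have z0 : 0 < z := by linarith
  have s0 : 0 ≤ s := le_trans (by positivity) hs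
  have h1 : z ^ 6 * s * (1 / 4) ≤ z ^ 6 * pp s := by
    rw [pp, ← mul_assoc]
    exact mul_le_mul_of_nonneg_left (by nlinarith) (by positivity)
  have h2 : -((c₀ - l) * s) ≤ 2 * z * s := by nlinarith [(abs_le.1 h0).1]
  exact exp_tiny hc z0 (by nlinarith [far hz hs, (abs_le.1 h0).2])

include hz h0 l1 l0 in
lemma g_out (w3 : w ≤ 3) (s1 : 1 / 2 ≤ s) :
    w - z ^ 6 * pp s - (c₀ - l) * s + c₀ ≤ 4 + l - z ^ 6 * (s - 1) ^ 2 / 4 := by
  have z0 : 0 < z := by linarith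
  have h1 : z ^ 6 * ((s - 1) ^ 2 / 2) ≤ z ^ 6 * pp s :=
    mul_le_mul_of_nonneg_left (by unfold pp; nlinarith [sq_nonneg (1 - s)]) (by positivity)
  have a1 : |c₀ - l| ≤ 2 * z := (abs_sub _ _).trans (by rw [abs_of_nonneg l0]; linarith)
  have h2 : -((c₀ - l) * (s - 1)) ≤ z ^ 3 * |s - 1| := by
    refine (neg_le_abs _).trans ?_
    rw [abs_mul]
    exact mul_le_mul_of_nonneg_right (by nlinarith [mul_pos z0 z0]) (abs_nonneg _)
  have h3 : z ^ 3 * |s - 1| ≤ z ^ 6 * (s - 1) ^ 2 / 4 + 1 := by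
    rw [← sq_abs (s - 1)]
    nlinarith [sq_nonneg (z ^ 3 * |s - 1| / 2 - 1)]
  linarith

include hc hz h0 l1 l0 in
lemma g_far (w3 : w ≤ 3) (s1 : 1 / 2 ≤ s) (hs : 1 / z ^ 2 ≤ |s - 1|) :
    Real.exp (c * (w - z ^ 6 * pp s - (c₀ - l) * s + c₀)) ≤ 1 / z := by
  have z0 : 0 < z := by linarith
  have h1 : 1 / z ^ 4 ≤ (s - 1) ^ 2 := by
    rw [← sq_abs (s - 1)]
    exact le_trans (le_of_eq (by field_simp)) (pow_le_pow_left₀ (by positivity) hs 2)
  exact exp_tiny hc z0 (by nlinarith [g_out hz h0 l0 l1 w3 s1, far hz h1])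

end Point

lemma ev_log (C : ℝ) (hC : 0 ≤ C) : ∀ᶠ z : ℝ in atTop, C * (1 + Real.log (z ^ 6)) ≤ z := by
  filter_upwards [Real.isLittleO_log_id_atTop.bound (show 0 < 1 / (12 * (C + 1)) by positivity),
    eventually_ge_atTop (2 * C), eventually_ge_atTop 1] with z h1 h2 h3
  rw [Real.norm_of_nonneg (Real.log_nonneg h3), id, Real.norm_of_nonneg (by linarith),
    div_mul_eq_mul_div, le_div_iff₀ (by positivity)] at h1
  rw [Real.log_pow]
  push_cast
  nlinarith [Real.log_nonneg h3]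

theorem exists_fine {j : ℕ} (hj : 2 ≤ j) {m : ℝ} (hm : 0 < m) (hθ : om j * m < 1) {η : ℝ}
    (hη : 0 < η) (hη1 : η ≤ 1) : ∃ (B : ℝ) (U g : ℝ → ℝ), Fine j m η B U g := by
  have hj1 : 1 ≤ j := by omega
  obtain ⟨C, hC, hap⟩ := approx hj hm hθ
  obtain ⟨D, hD, hder⟩ := G_deriv_bound j hη (j + 1)
  have c2 := two_le_cj (j := j)
  have c0' := cj_pos (j := j)
  have hc : 1 ≤ cj j := by linarith
  have X1 : 0 ≤ mass j (fun _ => 1) 0 4 := mass_nonneg' le_rfl (by norm_num) fun _ _ => zero_le_one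
  have X2 : 0 ≤ ell j (fun _ => 1) := ell_nonneg fun _ _ => zero_le_one
  obtain ⟨Y, eY⟩ : ∃ Y, Y = 8 * cj j * (m + 1) + (mass j (fun _ => 1) 0 4 + ell j fun _ => 1) +
    6 * 4 ^ j * Real.exp (cj j * 4) := ⟨_, rfl⟩
  have Y0 : 0 ≤ Y := by rw [eY]; positivity
  obtain ⟨z, ⟨hz, e2⟩, ⟨e3, e4⟩, ⟨e5, e6⟩, ⟨e7, e8⟩, e9⟩ :=
    (((eventually_ge_atTop 16).and (ev_log C hC)).and
      (((eventually_ge_atTop (4 * cj j)).and (eventually_ge_atTop (2 * cj j * Y / η))).and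
      (((eventually_ge_atTop ((Y + 4 ^ j * 4) / η)).and (eventually_ge_atTop (D * (m + 1)))).and
      (((eventually_ge_atTop (10 / η)).and (eventually_ge_atTop (2 * (4 ^ j * 4) / m))).and
        (eventually_ge_atTop (Real.exp (cj j * η⁻¹ + η))))))).exists
  have z0 : 0 < z := by linarith
  have z1 : 1 ≤ z := by linarith
  obtain ⟨W, f, c₀, sW, aW, bW, lW, hc₀, ef, mf, lf, cl⟩ :=
    hap (z ^ 6) (one_le_pow₀ z1) (η / (2 * cj j)) (by positivity)
  replace hc₀ := hc₀.trans e2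
  replace lf := lf.trans e2
  obtain ⟨l, el⟩ : ∃ l, l = Real.log z / cj j := ⟨_, rfl⟩
  have el' : cj j * l = Real.log z := by rw [el]; field_simp
  have lz := (Real.le_log_iff_exp_le z0).2 e9
  have l0 : 0 ≤ l := el ▸ div_nonneg (Real.log_nonneg z1) c0'.le
  have l1 : l ≤ z := by
    linarith only [Real.log_le_self z0.le, el', le_mul_of_one_le_left l0 hc]
  obtain ⟨g, eg⟩ : ∃ g : ℝ → ℝ, g = fun s =>
    Real.exp (cj j * (W s - z ^ 6 * pp s - (c₀ - l) * s + c₀)) := ⟨_, rfl⟩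
  have sp := smooth_pp
  have sg : ContDiff ℝ ∞ g := by rw [eg]; fun_prop
  have sf : ContDiff ℝ ∞ f := by rw [ef]; fun_prop
  have cg := sg.continuous
  have cf := sf.continuous
  have gp : ∀ s, 0 < g s := fun s => eg ▸ Real.exp_pos _
  have fp : ∀ s, 0 < f s := fun s => ef ▸ Real.exp_pos _
  have gn : ∀ s ∈ Icc (0 : ℝ) 4, 0 ≤ g s := fun s _ => (gp s).le
  have τ0 : 0 < 1 / z := by positivity
  have τ1 : 1 / z ≤ 1 := (div_le_one z0).2 z1
  have r1 : 1 / z ^ 2 ≤ 1 / z := one_div_le_one_div_of_le z0 (le_self_pow₀ z1 (by norm_num))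
  have r2 : 1 / z ^ 4 ≤ 1 / z := one_div_le_one_div_of_le z0 (le_self_pow₀ z1 (by norm_num))
  have r3 : 1 / z ≤ 1 / 16 := one_div_le_one_div_of_le (by norm_num) hz
  have r4 : 10 * (1 / z) ≤ η := by
    rw [div_le_iff₀ hη] at e7
    rw [mul_one_div, div_le_iff₀ z0]
    linarith
  have w3 : ∀ s ∈ Icc (1 / 2 : ℝ) 4, W s ≤ 3 := fun s hs =>
    (lW s ⟨by linarith [hs.1], hs.2⟩).trans (log_le_three hs)
  have ft : ∀ s ∈ Icc (1 / z ^ 4) 4, f s ≤ 1 / z := fun s hs => ef ▸ f_tiny hc hz hc₀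
    ((bW s ⟨le_trans (by positivity) hs.1, hs.2⟩).2.trans e2) hs.1
  have gt : ∀ s ∈ Icc (1 / z ^ 4) 4, 1 / z ^ 2 ≤ |s - 1| → g s ≤ 1 / z := fun s hs h => by
    rw [eg]
    rcases le_total s (1 / 2) with h1 | h1
    · exact g_mid hc hz hc₀ l1 ((bW s ⟨le_trans (by positivity) hs.1, hs.2⟩).2.trans e2) hs.1 h1
    · exact g_far hc hz hc₀ l0 l1 (w3 s ⟨h1, hs.2⟩) h1 h
  obtain ⟨b1, b2⟩ := shell_bound (h := fun s => |g s - f s|) hj1 (cg.fun_sub cf).abs cf
    (fun s => (fp s).le) (δ := 8 * cj j / z ^ 2) (S := Real.exp (cj j * 4) * z) (ρ := 1 / z ^ 2)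
    (by positivity) τ0.le (by positivity) (by positivity) (by linarith)
    (fun s hs h => by
      have p0 : 0 ≤ 8 * cj j / z ^ 2 * f s := mul_nonneg (by positivity) (fp s).le
      rcases le_total s (1 / z ^ 4) with h1 | h1
      · refine le_trans ?_ (le_add_of_nonneg_right τ0.le)
        rw [eg, ef]
        exact core hz hc₀ l0 l1 e3 c0'.le hs.1 h1
      · exact abs_le.2 ⟨by linarith [gp s, ft s ⟨h1, hs.2⟩], by linarith [fp s, gt s ⟨h1, hs.2⟩ h]⟩)
    fun s hs => by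
      have h1 : g s ≤ Real.exp (cj j * 4) * z := by
        rw [show Real.exp (cj j * 4) * z = Real.exp (cj j * (4 + l)) by
          rw [mul_add, Real.exp_add, el', Real.exp_log z0], eg]
        refine Real.exp_le_exp.2 (mul_le_mul_of_nonneg_left ?_ c0'.le)
        linarith [g_out hz hc₀ l0 l1 (w3 s hs) hs.1, mul_nonneg (pow_pos z0 6).le (sq_nonneg (s - 1))]
      have h2 : 1 ≤ Real.exp (cj j * 4) * z :=
        one_le_mul_of_one_le_of_one_le (Real.one_le_exp (by positivity)) z1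
      exact abs_le.2 ⟨by linarith [gp s, ft s ⟨by linarith [hs.1], hs.2⟩], by linarith [fp s]⟩
  have u1 : 4 ^ j * (Real.exp (cj j * 4) * z * 3) * (2 * (1 / z ^ 2)) =
    6 * 4 ^ j * Real.exp (cj j * 4) * (1 / z) := by field_simp; ring
  have u2 : 8 * cj j / z ^ 2 * m ≤ 8 * cj j * m * (1 / z) := by
    rw [div_mul_eq_mul_div, div_eq_mul_one_div]
    gcongr
  have u3 : 8 * cj j / z ^ 2 * ell j f ≤ 8 * cj j * (1 / z) :=
    (mul_le_mul_of_nonneg_left lf (by positivity)).trans_eq (by field_simp)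
  have u4 : 0 ≤ 8 * cj j * m * (1 / z) := by positivity
  have u5 : 0 ≤ 8 * cj j * (1 / z) := by positivity
  rw [mf, u1] at b1
  rw [u1] at b2
  replace b1 : mass j (fun s => |g s - f s|) 0 4 ≤ Y * (1 / z) := by
    rw [eY]; linarith only [b1, u2, u5, mul_nonneg τ0.le X2]
  replace b2 : ell j (fun s => |g s - f s|) ≤ Y * (1 / z) := by
    rw [eY]; linarith only [b2, u3, u4, mul_nonneg τ0.le X1]
  have v1 : Y * (1 / z) ≤ η / (2 * cj j) := by
    rw [div_le_iff₀ hη] at e4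
    rw [mul_one_div, div_le_div_iff₀ z0 (by positivity)]
    linarith
  have v2 : Y * (1 / z) + 4 ^ j * (1 / z) * 4 ≤ η := by
    rw [div_le_iff₀ hη] at e5
    rw [show Y * (1 / z) + 4 ^ j * (1 / z) * 4 = (Y + 4 ^ j * 4) / z by ring, div_le_iff₀ z0]
    linarith
  have v3 : (0 : ℝ) ≤ 4 ^ j * (1 / z) * 4 := by positivity
  have ca := (cg.fun_sub cf).abs
  have tot : |mass j g 0 4 - m| ≤ η := by
    have t1 := mass_le_mass (j := j) (cg.fun_sub cf) ca le_rfl (show (0 : ℝ) ≤ 4 by norm_num)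
      fun s _ => le_abs_self _
    have t2 := mass_le_mass (j := j) (cf.fun_sub cg) ca le_rfl (show (0 : ℝ) ≤ 4 by norm_num)
      fun s _ => by rw [abs_sub_comm]; exact le_abs_self _
    rw [mass_minus cg cf, mf] at t1
    rw [mass_minus cf cg, mf] at t2
    exact abs_le.2 ⟨by linarith, by linarith⟩
  have lg : ∀ s ∈ Icc (0 : ℝ) 4, |Real.log (g s) - cj j *
      (-z ^ 6 * pp s - (c₀ - l) * s + c₀ + (K j)^[j + 1] g s)| ≤ η := fun s hs => by
    have t1 := (iter_abs (j := j) (j + 1) cg cf s hs).trans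
      ((G_le_ell hj1 ca (fun _ _ => abs_nonneg _) s hs).trans (b2.trans v1))
    have t2 := abs_sub_le (W s) ((K j)^[j + 1] f s) ((K j)^[j + 1] g s)
    rw [abs_sub_comm] at t1
    rw [show Real.log (g s) = cj j * (W s - z ^ 6 * pp s - (c₀ - l) * s + c₀) by
      rw [eg]; exact Real.log_exp _, ← mul_sub, abs_mul, abs_of_pos c0', show W s - z ^ 6 * pp s -
        (c₀ - l) * s + c₀ - (-z ^ 6 * pp s - (c₀ - l) * s + c₀ + (K j)^[j + 1] g s) =
        W s - (K j)^[j + 1] g s by ring]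
    exact (mul_le_mul_of_nonneg_left (t2.trans (add_le_add (cl s hs) t1)) c0'.le).trans_eq
      (by field_simp; ring)
  have a1 : |c₀ - l| ≤ 2 * z := (abs_sub _ _).trans (by rw [abs_of_nonneg l0]; linarith)
  have ηi : 0 < η⁻¹ := inv_pos.2 hη
  refine ⟨z ^ 6, _, g, ?_, sg, ⟨c₀ - l, c₀, rfl⟩, gp, tot, ?_, lg, fun s hs hs1 i hi => ?_, ?_, ?_,
    fun s hs => ?_⟩
  · refine le_trans ?_ (le_self_pow₀ z1 (by norm_num))
    rw [inv_le_comm₀ hη z0, ← one_div]
    linarith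
  · have t1 := mass_le_mass (j := j) (g := fun s => |g s - f s| + f s) cg (ca.add cf) hη.le
      (show η ≤ 4 by linarith) fun s _ => by linarith [le_abs_self (g s - f s)]
    rw [mass_plus ca cf] at t1
    have t2 := mass_part (j := j) ca (fun _ _ => abs_nonneg _) hη.le (show η ≤ 4 by linarith) le_rfl
    have t3 := mass_const_le (j := j) cf hη.le (show η ≤ 4 by linarith) le_rfl τ0.le
      fun s hs => ft s ⟨by linarith [hs.1], hs.2⟩
    linarith only [t1, t2, t3, b1, v2, mul_pos (show (0 : ℝ) < 4 ^ j * (1 / z) by positivity) hη]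
  · have hg := smooth_iter (j := j) (j + 1) sg
    have e : (fun s => (-z ^ 6 * pp s - (c₀ - l) * s + c₀ + (K j)^[j + 1] g s) / z ^ 6 + pp s) =
        fun s => ((-(c₀ - l) * s + c₀) + (K j)^[j + 1] g s) / z ^ 6 := by
      funext s
      field_simp
      ring
    have h1 := hder g (m + 1) s sg gn hs ((gt s ⟨by linarith [hs.1], hs.2⟩ (by linarith)).trans
      (by linarith)) (by linarith [(abs_le.1 tot).2]) i hi
    have h2 := affine_bound (-(c₀ - l)) c₀ i (s := s) (abs_le.2 ⟨by linarith [hs.1], hs.2⟩)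
    have hi' : ((i : ℕ) : WithTop ℕ∞) ≤ ∞ := by exact_mod_cast le_top
    rw [abs_neg] at h2
    rw [e, iteratedDeriv_div_const, iteratedDeriv_fun_add (by fun_prop) (hg.contDiffAt.of_le hi'),
      abs_div, abs_of_pos (pow_pos z0 6), div_le_iff₀ (pow_pos z0 6)]
    refine (abs_add_le _ _).trans ?_
    calc _ ≤ 10 * (1 / z) * z ^ 2 := by rw [show 10 * (1 / z) * z ^ 2 = 10 * z by field_simp]; linarith
      _ ≤ η * z ^ 6 := by gcongr; norm_num
  · have := iter_nonneg (j := j) (j + 1) cg gn 1 ⟨zero_le_one, by norm_num⟩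
    have h3 : η⁻¹ ≤ l := le_of_mul_le_mul_left (by linarith) c0'
    simp only [pp]
    linarith
  · have σ0 : 0 < 1 / z ^ 4 := by positivity
    have t1 := mass_add j cf 0 (1 / z ^ 4) 4
    have t2 := mass_const_le (j := j) cf σ0.le (by linarith) le_rfl τ0.le ft
    have t3 := mass_const_le (j := j) cf le_rfl σ0.le (by linarith) (fp 0).le fun s hs => by
      rw [ef]
      refine Real.exp_le_exp.2 (mul_le_mul_of_nonneg_left ?_ c0'.le)
      linarith [aW ⟨le_rfl, by norm_num⟩ ⟨hs.1, by linarith [hs.2]⟩ hs.1,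
        mul_nonneg (pow_pos z0 6).le hs.1]
    have t4 : 4 ^ j * (1 / z) * 4 ≤ m / 2 := by
      rw [div_le_iff₀ hm] at e8
      rw [show 4 ^ j * (1 / z) * 4 = 4 ^ j * 4 / z by ring, div_le_iff₀ z0]
      linarith
    have t5 : 4 ^ j * (1 / z) * 4 ≤ 4 ^ j * f 0 * (1 / z ^ 4) := by
      linarith only [t1, t2, t3, t4, mf, mul_pos (show (0 : ℝ) < 4 ^ j * (1 / z) by positivity) σ0]
    have t6 : z ≤ f 0 := by
      rw [mul_assoc, mul_assoc, mul_le_mul_iff_right₀ (by positivity), mul_one_div (f 0),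
        le_div_iff₀ (by positivity), show 1 / z * 4 * z ^ 4 = 4 * z ^ 3 by field_simp] at t5
      linarith [le_self_pow₀ z1 (show 3 ≠ 0 by norm_num)]
    have t7 := (abs_le.1 (lg 0 ⟨le_rfl, by norm_num⟩)).2
    rw [show g 0 = f 0 by rw [eg, ef]; simp [pp]] at t7
    exact le_of_mul_le_mul_left (by linarith [Real.log_le_log z0 t6]) c0'
  · have t1 := G_anti (j := j) cg gn ⟨le_rfl, by norm_num⟩ ⟨hs.1, by linarith [hs.2]⟩ hs.1
    have t2 : z ^ 6 * s * (1 / 4) ≤ z ^ 6 * pp s := by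
      rw [pp, ← mul_assoc]
      exact mul_le_mul_of_nonneg_left (by nlinarith only [hs.1, hs.2])
        (mul_nonneg (by positivity) hs.1)
    have t3 : 8 * z ≤ z ^ 6 := le_trans (by nlinarith only [hz])
      (pow_le_pow_right₀ z1 (show 2 ≤ 6 by norm_num))
    have t4 := mul_le_mul_of_nonneg_right t3 hs.1
    have t5 := mul_le_mul_of_nonneg_right (abs_le.1 a1).1 hs.1
    simp only [show pp 0 = 0 by simp [pp]]
    linarith

end Pool.Agent.Lib.MP_af5b7f_an.P
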