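import Pool.Agent.Lib.MP_af5b7f_an.R.Dens

/-! The radial Dirichlet inverse of the Laplacian in the variable `s = |x|²`. -/

set_option autoImplicit false

open Filter Topology MeasureTheory Set
open scoped ContDiff

noncomputable section

namespace Pool.Agent.Lib.MP_af5b7f_an.P

open R

/-- the radial Dirichlet inverse of minus the Laplacian -/
def K (j : ℕ) (g : ℝ → ℝ) (t : ℝ) : ℝ := T j g 4 - T j g t

/-- the weighted inner product -/
def ip (j : ℕ) (f g : ℝ → ℝ) : ℝ := mass j (fun s => f s * g s) 0 4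

/-- the logarithmic moment -/
def ell (j : ℕ) (f : ℝ → ℝ) : ℝ := mass j (fun s => f s * Real.log (4 / s)) 0 4

variable {j : ℕ} {f g h : ℝ → ℝ}

lemma hasDerivAt_K (hg : Continuous g) (t : ℝ) : HasDerivAt (K j g) (-(A j g t / 4)) t :=
  (hasDerivAt_T j hg t).const_sub _

lemma cont_K (hg : Continuous g) : Continuous (K j g) :=
  continuous_iff_continuousAt.2 fun t => (hasDerivAt_K hg t).continuousAt

lemma cont_iter (k : ℕ) (hg : Continuous g) : Continuous ((K j)^[k] g) := by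
  induction k with
  | zero => exact hg
  | succ k ih => rw [Function.iterate_succ_apply']; exact cont_K ih

lemma smooth_K (hg : ContDiff ℝ ∞ g) : ContDiff ℝ ∞ (K j g) := contDiff_const.sub (contDiff_T j hg)

lemma smooth_iter (k : ℕ) (hg : ContDiff ℝ ∞ g) : ContDiff ℝ ∞ ((K j)^[k] g) := by
  induction k with
  | zero => exact hg
  | succ k ih => rw [Function.iterate_succ_apply']; exact smooth_K ih

lemma K_eq (hg : Continuous g) (t : ℝ) : K j g t = ∫ τ in t..4, A j g τ / 4 := by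
  have c := (continuous_A j hg).div_const 4
  rw [K, T, T, intervalIntegral.integral_interval_sub_left (c.intervalIntegrable _ _)
    (c.intervalIntegrable _ _)]

lemma A_nonneg (hg : ∀ s ∈ Icc (0 : ℝ) 4, 0 ≤ g s) {t : ℝ} (ht : t ∈ Icc (0 : ℝ) 4) :
    0 ≤ A j g t :=
  intervalIntegral.integral_nonneg zero_le_one fun _ hσ => mul_nonneg (pow_nonneg hσ.1 _)
    (hg _ ⟨mul_nonneg hσ.1 ht.1, (mul_le_of_le_one_left ht.1 hσ.2).trans ht.2⟩)

lemma K_nonneg (hc : Continuous g) (hg : ∀ s ∈ Icc (0 : ℝ) 4, 0 ≤ g s) :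
    ∀ t ∈ Icc (0 : ℝ) 4, 0 ≤ K j g t := fun t ht => by
  rw [K_eq hc]
  exact intervalIntegral.integral_nonneg ht.2 fun τ hτ =>
    div_nonneg (A_nonneg hg ⟨ht.1.trans hτ.1, hτ.2⟩) (by norm_num)

lemma iter_nonneg (k : ℕ) (hc : Continuous g) (hg : ∀ s ∈ Icc (0 : ℝ) 4, 0 ≤ g s) :
    ∀ t ∈ Icc (0 : ℝ) 4, 0 ≤ (K j)^[k] g t := by
  induction k with
  | zero => exact hg
  | succ k ih => rw [Function.iterate_succ_apply']; exact K_nonneg (cont_iter k hc) ih

lemma K_sub (hf : Continuous f) (hg : Continuous g) :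
    K j (fun s => f s - g s) = fun s => K j f s - K j g s := by
  funext s
  simp only [K, T_sub j hf hg]
  ring

lemma iter_sub (k : ℕ) (hf : Continuous f) (hg : Continuous g) :
    (K j)^[k] (fun s => f s - g s) = fun s => (K j)^[k] f s - (K j)^[k] g s := by
  induction k with
  | zero => rfl
  | succ k ih =>
    simp only [Function.iterate_succ_apply']
    rw [ih, K_sub (cont_iter k hf) (cont_iter k hg)]

lemma iter_mono (k : ℕ) (hf : Continuous f) (hg : Continuous g)
    (h : ∀ s ∈ Icc (0 : ℝ) 4, f s ≤ g s) : ∀ s ∈ Icc (0 : ℝ) 4, (K j)^[k] f s ≤ (K j)^[k] g s :=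
  fun s hs => by
    have := iter_nonneg (j := j) k (hg.sub hf) (fun s hs => sub_nonneg.2 (h s hs)) s hs
    rw [show g - f = fun s => g s - f s from rfl, iter_sub k hg hf] at this
    exact sub_nonneg.1 this

lemma iter_abs (k : ℕ) (hf : Continuous f) (hg : Continuous g) :
    ∀ s ∈ Icc (0 : ℝ) 4, |(K j)^[k] f s - (K j)^[k] g s| ≤ (K j)^[k] (fun s => |f s - g s|) s :=
  fun s hs => by
    have c : Continuous fun s => |f s - g s| := by fun_prop
    have h1 := iter_mono (j := j) k (hf.fun_sub hg) c (fun s _ => le_abs_self _) s hs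
    have h2 := iter_mono (j := j) k (hg.fun_sub hf) c
      (fun s _ => by rw [abs_sub_comm]; exact le_abs_self _) s hs
    rw [iter_sub k hf hg] at h1
    rw [iter_sub k hg hf] at h2
    exact abs_le.2 ⟨by linarith, h1⟩

lemma K_anti (hc : Continuous g) (hg : ∀ s ∈ Icc (0 : ℝ) 4, 0 ≤ g s) :
    AntitoneOn (K j g) (Icc 0 4) := fun s hs t ht hst => by
  have c := (continuous_A j hc).div_const 4
  rw [K_eq hc, K_eq hc, ← intervalIntegral.integral_add_adjacent_intervals (a := s) (b := t)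
    (c.intervalIntegrable _ _) (c.intervalIntegrable _ _), le_add_iff_nonneg_left]
  exact intervalIntegral.integral_nonneg hst fun τ hτ =>
    div_nonneg (A_nonneg hg ⟨hs.1.trans hτ.1, hτ.2.trans ht.2⟩) (by norm_num)

lemma mass_eq (f : ℝ → ℝ) {t : ℝ} (ht : 0 ≤ t) : mass j f 0 t = t ^ (j + 1) * A j f t := by
  rcases ht.eq_or_lt with rfl | ht
  · simp [mass]
  · rw [A_eq_mass j f ht]; field_simp

lemma ip_K (hf : Continuous f) (hg : Continuous g) :
    ip j f (K j g) = ∫ t in (0 : ℝ)..4, t ^ (j + 1) * (A j f t * A j g t) / 4 := by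
  have c1 : Continuous fun s => s ^ j * f s := by fun_prop
  have c2 := continuous_A j hf
  have c3 := continuous_A j hg
  have h := intervalIntegral.integral_mul_deriv_eq_deriv_mul (a := 0) (b := 4) (u := K j g)
    (v := fun t => mass j f 0 t) (u' := fun t => -(A j g t / 4)) (v' := fun s => s ^ j * f s)
    (fun t _ => hasDerivAt_K hg t) (fun t _ => (c1.integral_hasStrictDerivAt 0 t).hasDerivAt)
    (Continuous.intervalIntegrable (by fun_prop) _ _) (c1.intervalIntegrable _ _)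
  have e : ip j f (K j g) = ∫ x in (0 : ℝ)..4, K j g x * (x ^ j * f x) := by
    unfold ip mass
    congr 1
    funext s
    ring
  rw [e, h, show K j g 4 = 0 from sub_self _, show mass j f 0 0 = 0 by simp [mass], zero_mul,
    mul_zero, sub_zero, zero_sub, ← intervalIntegral.integral_neg]
  refine intervalIntegral.integral_congr fun t ht => ?_
  rw [uIcc_of_le (by norm_num)] at ht
  simp only [mass_eq f ht.1]
  ring

lemma ip_comm (f g : ℝ → ℝ) : ip j f g = ip j g f := by simp only [ip, mul_comm]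

lemma ip_symm (hf : Continuous f) (hg : Continuous g) : ip j f (K j g) = ip j (K j f) g := by
  rw [ip_comm (K j f), ip_K hf hg, ip_K hg hf]
  simp only [mul_comm (A j f _)]

lemma ip_iter (k : ℕ) : ∀ {f g : ℝ → ℝ}, Continuous f → Continuous g →
    ip j f ((K j)^[k] g) = ip j ((K j)^[k] f) g := by
  induction k with
  | zero => exact fun _ _ => rfl
  | succ k ih =>
    intro f g hf hg
    rw [Function.iterate_succ_apply', ip_symm hf (cont_iter k hg), ih (cont_K hf) hg,
      Function.iterate_succ_apply]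

lemma ip_pos (k : ℕ) : ∀ {f : ℝ → ℝ}, Continuous f → 0 ≤ ip j f ((K j)^[k] f) := by
  induction k using Nat.twoStepInduction with
  | zero => exact fun _ => mass_nonneg j (fun s => mul_self_nonneg _) le_rfl (by norm_num)
  | one =>
    intro f hf
    rw [Function.iterate_one, ip_K hf hf]
    exact intervalIntegral.integral_nonneg (by norm_num) fun t ht =>
      div_nonneg (mul_nonneg (pow_nonneg ht.1 _) (mul_self_nonneg _)) (by norm_num)
  | more k ih _ =>
    intro f hf
    rw [Function.iterate_succ_apply', ip_symm hf (cont_iter _ hf), Function.iterate_succ_apply]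
    exact ih (cont_K hf)

lemma mass_le_mass (hf : Continuous f) (hg : Continuous g) {u v : ℝ} (hu : 0 ≤ u) (huv : u ≤ v)
    (h : ∀ s ∈ Icc u v, f s ≤ g s) : mass j f u v ≤ mass j g u v :=
  intervalIntegral.integral_mono_on huv (Continuous.intervalIntegrable (by fun_prop) _ _)
    (Continuous.intervalIntegrable (by fun_prop) _ _) fun s hs =>
      mul_le_mul_of_nonneg_left (h s hs) (pow_nonneg (hu.trans hs.1) _)

lemma mass_nonneg' {u v : ℝ} (hu : 0 ≤ u) (huv : u ≤ v) (h : ∀ s ∈ Icc u v, 0 ≤ f s) :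
    0 ≤ mass j f u v :=
  intervalIntegral.integral_nonneg huv fun s hs => mul_nonneg (pow_nonneg (hu.trans hs.1) _) (h s hs)

lemma mass_part (hc : Continuous f) (hf : ∀ s ∈ Icc (0 : ℝ) 4, 0 ≤ f s) {u v : ℝ} (hu : 0 ≤ u)
    (huv : u ≤ v) (hv : v ≤ 4) : mass j f u v ≤ mass j f 0 4 := by
  have a1 := mass_add j hc 0 u v
  have a2 := mass_add j hc 0 v 4
  linarith [mass_nonneg' (j := j) le_rfl hu fun s hs => hf s ⟨hs.1, by linarith [hs.2]⟩,
    mass_nonneg' (j := j) (hu.trans huv) hv fun s hs => hf s ⟨by linarith [hs.1], hs.2⟩]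

lemma mass_const_le (hc : Continuous f) {u v M : ℝ} (hu : 0 ≤ u) (huv : u ≤ v) (hv : v ≤ 4)
    (hM : 0 ≤ M) (h : ∀ s ∈ Icc u v, f s ≤ M) : mass j f u v ≤ 4 ^ j * M * (v - u) := by
  have := intervalIntegral.integral_mono_on (μ := volume) (f := fun s => s ^ j * f s)
    (g := fun _ => 4 ^ j * M) huv (Continuous.intervalIntegrable (by fun_prop) _ _)
    intervalIntegrable_const fun s hs => by
      have h0 := hu.trans hs.1
      calc s ^ j * f s ≤ s ^ j * M := mul_le_mul_of_nonneg_left (h s hs) (pow_nonneg h0 _)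
        _ ≤ _ := by gcongr; exact hs.2.trans hv
  rw [intervalIntegral.integral_const, smul_eq_mul, mul_comm] at this
  exact this

lemma mass_K (hc : Continuous g) (hg : ∀ s ∈ Icc (0 : ℝ) 4, 0 ≤ g s) :
    mass j (K j g) 0 4 ≤ mass j g 0 4 := by
  have h1 := ip_symm (j := j) (f := fun _ => 1) continuous_const hc
  simp only [ip, one_mul] at h1
  rw [h1]
  refine mass_le_mass ((cont_K continuous_const).mul hc) hc le_rfl (by norm_num) fun s hs =>
    mul_le_of_le_one_left (hg s hs) ?_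
  have hA : ∀ s ∈ Icc (0 : ℝ) 4, |A j (fun _ => 1) s| ≤ 1 := fun s hs =>
    abs_A_le j hs.1 fun _ _ => by simp
  have h2 := K_anti (j := j) (g := fun _ => 1) continuous_const (fun _ _ => zero_le_one)
    ⟨le_rfl, by norm_num⟩ hs hs.1
  have h3 := (abs_le.1 (abs_T_le j hA (t := 4) ⟨by norm_num, le_rfl⟩)).2
  have h4 : T j (fun _ => 1) 0 = 0 := by simp [T]
  unfold K at h2 ⊢
  linarith

lemma mass_iter (k : ℕ) (hc : Continuous g) (hg : ∀ s ∈ Icc (0 : ℝ) 4, 0 ≤ g s) :
    mass j ((K j)^[k] g) 0 4 ≤ mass j g 0 4 := by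
  induction k with
  | zero => exact le_rfl
  | succ k ih =>
    rw [Function.iterate_succ_apply']
    exact (mass_K (cont_iter k hc) (iter_nonneg k hc hg)).trans ih

lemma A_le_mass (hc : Continuous g) (hg : ∀ s ∈ Icc (0 : ℝ) 4, 0 ≤ g s) {t : ℝ}
    (ht : t ∈ Ioc (0 : ℝ) 4) : A j g t ≤ mass j g 0 4 / t ^ (j + 1) := by
  rw [A_eq_mass j g ht.1]
  exact div_le_div_of_nonneg_right (mass_part hc hg le_rfl ht.1.le ht.2) (pow_pos ht.1 _).le

lemma A_le_pow (hc : Continuous g) {i l : ℕ} (hj : i + l = j) {C : ℝ}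
    (h : ∀ s ∈ Ioc (0 : ℝ) 4, g s ≤ C / s ^ i) :
    ∀ t ∈ Ioc (0 : ℝ) 4, A j g t ≤ C / (l + 1) / t ^ i := fun t ht => by
  have t0 := ht.1
  have := intervalIntegral.integral_mono_on_of_le_Ioo (μ := volume) (a := 0) (b := 1)
    (f := fun σ => σ ^ j * g (σ * t)) (g := fun σ => C / t ^ i * σ ^ l) zero_le_one
    (Continuous.intervalIntegrable (by fun_prop) _ _)
    (Continuous.intervalIntegrable (by fun_prop) _ _) fun σ hσ => by
      have s0 := hσ.1
      refine (mul_le_mul_of_nonneg_left (h _ ⟨by positivity,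
        (mul_le_of_le_one_left t0.le hσ.2.le).trans ht.2⟩) (pow_nonneg s0.le _)).trans_eq ?_
      rw [← hj]
      field_simp
      ring
  rw [intervalIntegral.integral_const_mul, integral_pow] at this
  refine this.trans_eq ?_
  simp only [one_pow, ne_eq, Nat.add_eq_zero_iff, one_ne_zero, and_false, not_false_eq_true,
    zero_pow, sub_zero]
  ring

lemma K_le_of (hc : Continuous g) {φ φ' : ℝ → ℝ} (hd : ∀ t, 0 < t → HasDerivAt φ (-φ' t) t)
    (hφ : ContinuousOn φ' (Ioi 0)) (h4 : 0 ≤ φ 4) (h : ∀ t ∈ Ioc (0 : ℝ) 4, A j g t / 4 ≤ φ' t) :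
    ∀ s ∈ Ioc (0 : ℝ) 4, K j g s ≤ φ s := fun s hs => by
  have i : IntervalIntegrable φ' volume s 4 :=
    (hφ.mono fun t ht => hs.1.trans_le ht.1).intervalIntegrable_of_Icc hs.2
  have h1 := intervalIntegral.integral_eq_sub_of_hasDerivAt (a := s) (b := 4) (f := φ)
    (f' := fun t => -φ' t) (fun t ht => hd t (by
      rw [uIcc_of_le hs.2] at ht; exact hs.1.trans_le ht.1)) i.neg
  rw [intervalIntegral.integral_neg] at h1
  have h2 := intervalIntegral.integral_mono_on hs.2
    (((continuous_A j hc).div_const 4).intervalIntegrable _ _) i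
    fun t ht => h t ⟨hs.1.trans_le ht.1, ht.2⟩
  rw [K_eq hc]
  linarith

lemma K_le_pow (hc : Continuous g) {i : ℕ} {D : ℝ} (hD : 0 ≤ D)
    (h : ∀ t ∈ Ioc (0 : ℝ) 4, A j g t ≤ D / t ^ (i + 2)) :
    ∀ s ∈ Ioc (0 : ℝ) 4, K j g s ≤ D / (4 * (i + 1)) / s ^ (i + 1) :=
  K_le_of hc (φ := fun s => D / (4 * (i + 1)) / s ^ (i + 1)) (φ' := fun t => D / t ^ (i + 2) / 4)
    (fun t ht => by
      refine ((hasDerivAt_const t _).fun_div (hasDerivAt_pow (i + 1) t)
        (pow_pos ht _).ne').congr_deriv ?_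
      simp only [Nat.add_sub_cancel]
      push_cast
      field_simp
      ring)
    ((continuousOn_const.div (by fun_prop) fun t ht => (pow_pos ht _).ne').div_const _)
    (by positivity) fun t ht => by linarith [h t ht]

lemma K_le_log (hc : Continuous g) {D : ℝ} (h : ∀ t ∈ Ioc (0 : ℝ) 4, A j g t ≤ D / t ^ 1) :
    ∀ s ∈ Ioc (0 : ℝ) 4, K j g s ≤ D / 4 * Real.log (4 / s) :=
  K_le_of hc (φ := fun s => D / 4 * Real.log (4 / s)) (φ' := fun t => D / t ^ 1 / 4)
    (fun t ht => by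
      refine ((((hasDerivAt_const t (4 : ℝ)).fun_div (hasDerivAt_id' t) ht.ne').log
        (by positivity)).const_mul _).congr_deriv ?_
      field_simp
      ring)
    ((continuousOn_const.div (by fun_prop) fun t ht => (pow_pos ht _).ne').div_const _)
    (by simp) fun t ht => by linarith [h t ht]

lemma iter_le_pow (hc : Continuous f) (hf : ∀ s ∈ Icc (0 : ℝ) 4, 0 ≤ f s) (k : ℕ) :
    ∀ i, k + 1 + i = j → ∀ s ∈ Ioc (0 : ℝ) 4, (K j)^[k + 1] f s ≤ mass j f 0 4 *
      (i.factorial / (4 ^ (k + 1) * k.factorial * j.factorial)) / s ^ (i + 1) := by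
  have m0 : 0 ≤ mass j f 0 4 := mass_nonneg' le_rfl (by norm_num) hf
  induction k with
  | zero =>
    intro i hi s hs
    obtain rfl : j = i + 1 := by omega
    refine (K_le_pow hc m0 (fun t ht => A_le_mass hc hf ht) s hs).trans_eq ?_
    rw [Nat.factorial_succ]
    push_cast [Nat.factorial_zero]
    field_simp
  | succ k ih =>
    intro i hi s hs
    rw [Function.iterate_succ_apply']
    refine (K_le_pow (cont_iter _ hc) (by positivity) (A_le_pow (l := k) (cont_iter _ hc)
      (by omega) (ih (i + 1) (by omega))) s hs).trans_eq ?_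
    rw [Nat.factorial_succ, Nat.factorial_succ]
    push_cast
    field_simp
    ring

/-- the constant of the logarithmic kernel -/
def om (j : ℕ) : ℝ := 1 / (4 ^ (j + 1) * (j.factorial : ℝ) ^ 2)

lemma om_pos : 0 < om j := by unfold om; positivity

lemma om_le : om j ≤ 1 := by
  have : (1 : ℝ) ≤ j.factorial := by exact_mod_cast j.factorial_pos
  exact (div_le_one (by positivity)).2
    (one_le_mul_of_one_le_of_one_le (one_le_pow₀ (by norm_num)) (one_le_pow₀ this))

lemma G_le_log (hj : 1 ≤ j) (hc : Continuous f) (hf : ∀ s ∈ Icc (0 : ℝ) 4, 0 ≤ f s) :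
    ∀ s ∈ Ioc (0 : ℝ) 4, (K j)^[j + 1] f s ≤ om j * mass j f 0 4 * Real.log (4 / s) := by
  obtain ⟨k, rfl⟩ : ∃ k, j = k + 1 := ⟨j - 1, by omega⟩
  intro s hs
  rw [Function.iterate_succ_apply']
  refine (K_le_log (cont_iter _ hc) (A_le_pow (l := k) (cont_iter _ hc) (by omega)
    (iter_le_pow hc hf k 0 rfl)) s hs).trans_eq ?_
  rw [om, Nat.factorial_succ]
  push_cast [Nat.factorial_zero]
  field_simp
  ring

lemma log_nonneg' {s : ℝ} (hs : s ∈ Icc (0 : ℝ) 4) : 0 ≤ Real.log (4 / s) := by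
  rcases hs.1.eq_or_lt with rfl | h
  · simp
  · exact Real.log_nonneg ((one_le_div h).2 hs.2)

lemma cont_slog : Continuous fun s : ℝ => s * Real.log (4 / s) := by
  have : (fun s : ℝ => s * Real.log (4 / s)) = fun s => s * Real.log 4 - s * Real.log s := by
    funext s
    rcases eq_or_ne s 0 with rfl | h
    · simp
    · rw [Real.log_div (by norm_num) h]; ring
  rw [this]
  exact (by fun_prop : Continuous fun s : ℝ => s * Real.log 4).sub Real.continuous_mul_log

lemma int_ell (hj : 1 ≤ j) (hc : Continuous f) (u v : ℝ) :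
    IntervalIntegrable (fun s => s ^ j * (f s * Real.log (4 / s))) volume u v := by
  obtain ⟨k, rfl⟩ : ∃ k, j = k + 1 := ⟨j - 1, by omega⟩
  have : Continuous fun s => s ^ k * f s * (s * Real.log (4 / s)) :=
    (by fun_prop : Continuous fun s => s ^ k * f s).mul cont_slog
  exact (this.congr fun s => by ring).intervalIntegrable _ _

lemma ell_nonneg (hf : ∀ s ∈ Icc (0 : ℝ) 4, 0 ≤ f s) : 0 ≤ ell j f :=
  mass_nonneg' le_rfl (by norm_num) fun s hs => mul_nonneg (hf s hs) (log_nonneg' hs)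

lemma ip_G_le (hj : 1 ≤ j) (hc : Continuous f) (hf : ∀ s ∈ Icc (0 : ℝ) 4, 0 ≤ f s)
    (hc' : Continuous g) (hg : ∀ s ∈ Icc (0 : ℝ) 4, 0 ≤ g s) :
    ip j f ((K j)^[j + 1] g) ≤ om j * mass j g 0 4 * ell j f := by
  have c := cont_iter (j := j) (j + 1) hc'
  rw [ell, mass.eq_1 j (fun s => f s * _), ← intervalIntegral.integral_const_mul, ip, mass]
  have i1 : Continuous fun s => s ^ j * (f s * (K j)^[j + 1] g s) := by fun_prop
  refine intervalIntegral.integral_mono_on_of_le_Ioo (show (0 : ℝ) ≤ 4 by norm_num)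
    (i1.intervalIntegrable _ _) ((int_ell hj hc _ _).const_mul _) fun s hs => ?_
  have h1 := mul_le_mul_of_nonneg_left (G_le_log hj hc' hg s ⟨hs.1, hs.2.le⟩)
    (mul_nonneg (pow_nonneg hs.1.le j) (hf s ⟨hs.1.le, hs.2.le⟩))
  linarith

lemma G_anti (hc : Continuous f) (hf : ∀ s ∈ Icc (0 : ℝ) 4, 0 ≤ f s) :
    AntitoneOn ((K j)^[j + 1] f) (Icc 0 4) := by
  rw [Function.iterate_succ_apply']
  exact K_anti (cont_iter j hc) (iter_nonneg j hc hf)

lemma G_le_ell (hj : 1 ≤ j) (hc : Continuous f) (hf : ∀ s ∈ Icc (0 : ℝ) 4, 0 ≤ f s) :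
    ∀ s ∈ Icc (0 : ℝ) 4, (K j)^[j + 1] f s ≤ ell j f := fun s hs => by
  refine (G_anti hc hf ⟨le_rfl, by norm_num⟩ hs hs.1).trans
    (le_of_forall_lt_imp_le_of_dense fun L hL => ?_)
  have c := cont_iter (j := j) (j + 1) hc
  obtain ⟨d, d0, hd⟩ := Metric.eventually_nhds_iff.1 (c.continuousAt.eventually_const_lt hL)
  obtain ⟨δ, δ0, δ1, δ2⟩ : ∃ δ, 0 < δ ∧ δ ≤ 4 ∧ δ ≤ d := ⟨min 4 d, by positivity, min_le_left _ _,
    min_le_right _ _⟩
  have cb : Continuous fun s : ℝ => max (δ - s) 0 := by fun_prop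
  have b0 : ∀ s ∈ Icc (0 : ℝ) 4, 0 ≤ max (δ - s) 0 := fun s _ => le_max_right _ _
  have m0 : 0 < mass j (fun s => max (δ - s) 0) 0 4 :=
    lt_of_lt_of_le (intervalIntegral.intervalIntegral_pos_of_pos_on
      (Continuous.intervalIntegrable (by fun_prop) _ _) (fun s hs =>
        mul_pos (pow_pos hs.1 _) (lt_max_of_lt_left (sub_pos.2 hs.2))) δ0)
      (mass_part cb b0 le_rfl δ0.le δ1)
  have h1 := ip_G_le hj hc hf cb b0
  rw [ip_iter _ hc cb] at h1
  have h2 := mass_le_mass (j := j) (f := fun s => L * max (δ - s) 0) (by fun_prop) (c.mul cb)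
    le_rfl (show (0 : ℝ) ≤ 4 by norm_num) fun s hs => by
      rcases lt_or_ge s δ with h | h
      · exact mul_le_mul_of_nonneg_right (hd (by
          rw [Real.dist_eq, sub_zero, abs_of_nonneg hs.1]; linarith)).le (b0 s hs)
      · simp [max_eq_right (sub_nonpos.2 h)]
  have h3 : mass j (fun s => L * max (δ - s) 0) 0 4 = L * mass j (fun s => max (δ - s) 0) 0 4 := by
    rw [mass, mass, ← intervalIntegral.integral_const_mul]
    congr 1
    funext s
    ring
  rw [h3] at h2
  have h4 := mul_le_mul_of_nonneg_right (mul_le_of_le_one_left m0.le (om_le (j := j)))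
    (ell_nonneg (j := j) hf)
  exact le_of_mul_le_mul_right (by unfold ip at h1; linarith [h2.trans h1]) m0

lemma G_deriv_bound (j : ℕ) {a : ℝ} (ha : 0 < a) (k : ℕ) : ∃ C : ℝ, 1 ≤ C ∧
    ∀ (f : ℝ → ℝ) (M s : ℝ), ContDiff ℝ ∞ f → (∀ s ∈ Icc (0 : ℝ) 4, 0 ≤ f s) → s ∈ Icc a 4 →
      f s ≤ M → mass j f 0 4 ≤ M → ∀ i ≤ 2 * k, |iteratedDeriv i ((K j)^[k] f) s| ≤ C * M := by
  induction k with
  | zero =>
    refine ⟨1, le_rfl, fun g M s _ h0 hs h _ i hi => ?_⟩
    rw [Nat.le_zero.1 hi]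
    simpa [abs_of_nonneg (h0 s ⟨ha.le.trans hs.1, hs.2⟩)] using h
  | succ k ih =>
    obtain ⟨C, hC, h⟩ := ih
    obtain ⟨D, hD, h'⟩ := A_deriv_bound j ha (2 * k + 1)
    have q0 : 0 < 1 / a ^ (j + 1) := by positivity
    refine ⟨D * (C + 1 / a ^ (j + 1)), one_le_mul_of_one_le_of_one_le hD (by linarith),
      fun f M s hf h0 hs h1 h2 i hi => ?_⟩
    have hs' : s ∈ Icc (0 : ℝ) 4 := ⟨ha.le.trans hs.1, hs.2⟩
    have hM : 0 ≤ M := (h0 s hs').trans h1
    have hg := smooth_iter (j := j) k hf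
    have g0 := iter_nonneg (j := j) k hf.continuous h0
    have hA : ∀ t ∈ Icc a 4, |A j ((K j)^[k] f) t| ≤ (C + 1 / a ^ (j + 1)) * M := fun t ht => by
      rw [abs_of_nonneg (A_nonneg g0 ⟨ha.le.trans ht.1, ht.2⟩)]
      refine (A_le_mass hg.continuous g0 ⟨ha.trans_le ht.1, ht.2⟩).trans ((div_le_div₀ hM
        ((mass_iter k hf.continuous h0).trans h2) (pow_pos ha _)
        (pow_le_pow_left₀ ha.le ht.1 _)).trans ?_)
      rw [div_eq_mul_one_div]
      nlinarith
    rw [Function.iterate_succ_apply', mul_assoc]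
    rcases i with _ | i
    · rw [iteratedDeriv_zero, K_eq hg.continuous]
      have := intervalIntegral.norm_integral_le_of_norm_le_const (a := s) (b := 4)
        (C := (C + 1 / a ^ (j + 1)) * M / 4) (f := fun τ => A j ((K j)^[k] f) τ / 4) fun τ hτ => by
          rw [uIoc_of_le hs.2] at hτ
          rw [Real.norm_eq_abs, abs_div, abs_of_pos (by norm_num : (0 : ℝ) < 4)]
          linarith [hA τ ⟨hs.1.trans hτ.1.le, hτ.2⟩]
      rw [abs_of_nonneg (sub_nonneg.2 hs.2)] at this
      have p0 : 0 ≤ (C + 1 / a ^ (j + 1)) * M := by positivity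
      exact this.trans (le_trans (by nlinarith [hs'.1]) (le_mul_of_one_le_left p0 hD))
    · have e : deriv (K j ((K j)^[k] f)) = fun t => -(1 / 4) * A j ((K j)^[k] f) t :=
        funext fun t => (hasDerivAt_K hg.continuous t).deriv.trans (by ring)
      rw [iteratedDeriv_succ', e, iteratedDeriv_const_mul_field, abs_mul]
      have := h' _ _ s hg hs.1 (hA s hs) (fun i hi => (h f M s hf h0 hs h1 h2 i (by omega)).trans
        (by nlinarith)) i (by omega)
      rw [abs_neg, abs_of_pos (by norm_num : (0 : ℝ) < 1 / 4)]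
      linarith [abs_nonneg (iteratedDeriv i (A j ((K j)^[k] f)) s)]

end Pool.Agent.Lib.MP_af5b7f_an.P
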