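import Pool.Agent.Lib.MP_af5b7f_an.P.Op

/-! Near minimisers of the free energy give approximate solutions. -/

set_option autoImplicit false

open Filter Topology MeasureTheory Set
open scoped ContDiff

noncomputable section

namespace Pool.Agent.Lib.MP_af5b7f_an.P

open R

/-- the dimension -/
def cj (j : ℕ) : ℝ := 2 * ((j + 1 : ℕ) : ℝ)

/-- the partition function -/
def Zf (j : ℕ) (β : ℝ) (f : ℝ → ℝ) : ℝ :=
  mass j (fun s => Real.exp (cj j * ((K j)^[j + 1] f s - β * s))) 0 4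

/-- the normalising constant -/
def c0 (j : ℕ) (m β : ℝ) (f : ℝ → ℝ) : ℝ := Real.log (m / Zf j β f) / cj j

/-- the Gibbs map -/
def Phi (j : ℕ) (m β : ℝ) (f : ℝ → ℝ) (s : ℝ) : ℝ :=
  Real.exp (cj j * ((K j)^[j + 1] f s - β * s + c0 j m β f))

/-- the free energy -/
def FF (j : ℕ) (β : ℝ) (f : ℝ → ℝ) : ℝ :=
  mass j (fun s => f s * Real.log (f s)) 0 4 / cj j + β * mass j (fun s => s * f s) 0 4 -
    ip j f ((K j)^[j + 1] f) / 2

/-- the relative entropy -/
def HH (j : ℕ) (f g : ℝ → ℝ) : ℝ :=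
  mass j (fun s => f s * Real.log (f s) - f s * Real.log (g s) - f s + g s) 0 4

/-- admissible densities -/
structure Adm (j : ℕ) (m : ℝ) (f : ℝ → ℝ) : Prop where
  smooth : ContDiff ℝ ∞ f
  pos : ∀ s, 0 < f s
  total : mass j f 0 4 = m

variable {j : ℕ} {m β : ℝ} {f g h : ℝ → ℝ}

lemma two_le_cj : 2 ≤ cj j := by
  unfold cj; push_cast; linarith [Nat.cast_nonneg (α := ℝ) j]

lemma cj_pos : 0 < cj j := two_pos.trans_le two_le_cj

lemma mass_smul (a : ℝ) (f : ℝ → ℝ) (u v : ℝ) :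
    mass j (fun s => a * f s) u v = a * mass j f u v := by
  rw [mass, mass.eq_1 j f, ← intervalIntegral.integral_const_mul]
  congr 1
  funext s
  ring

lemma mass_plus (hf : Continuous f) (hg : Continuous g) (u v : ℝ) :
    mass j (fun s => f s + g s) u v = mass j f u v + mass j g u v := by
  simp only [mass, mul_add]
  exact intervalIntegral.integral_add (Continuous.intervalIntegrable (by fun_prop) _ _)
    (Continuous.intervalIntegrable (by fun_prop) _ _)

lemma mass_minus (hf : Continuous f) (hg : Continuous g) (u v : ℝ) :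
    mass j (fun s => f s - g s) u v = mass j f u v - mass j g u v := by
  simp only [mass, mul_sub]
  exact intervalIntegral.integral_sub (Continuous.intervalIntegrable (by fun_prop) _ _)
    (Continuous.intervalIntegrable (by fun_prop) _ _)

lemma Zf_pos (hf : Continuous f) : 0 < Zf j β f := by
  have := cont_iter (j := j) (j + 1) hf
  exact intervalIntegral.intervalIntegral_pos_of_pos_on
    (Continuous.intervalIntegrable (by fun_prop) _ _)
    (fun s hs => mul_pos (pow_pos hs.1 _) (Real.exp_pos _)) (by norm_num)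

lemma Phi_adm (hm : 0 < m) (hf : ContDiff ℝ ∞ f) : Adm j m (Phi j m β f) := by
  have h1 := smooth_iter (j := j) (j + 1) hf
  have h2 := Zf_pos (j := j) (β := β) hf.continuous
  refine ⟨by unfold Phi; fun_prop, fun s => Real.exp_pos _, ?_⟩
  have e : Phi j m β f = fun s => m / Zf j β f *
      Real.exp (cj j * ((K j)^[j + 1] f s - β * s)) := by
    funext s
    rw [Phi, mul_add, Real.exp_add, c0, mul_div_cancel₀ _ cj_pos.ne', Real.exp_log (div_pos hm h2),
      mul_comm]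
  rw [e, mass_smul]
  exact div_mul_cancel₀ _ h2.ne'

lemma mass_log_Phi (hf : Continuous f) (hh : Continuous h) :
    mass j (fun s => h s * Real.log (Phi j m β f s)) 0 4 = cj j * (ip j h ((K j)^[j + 1] f) -
      β * mass j (fun s => s * h s) 0 4 + c0 j m β f * mass j h 0 4) := by
  have := cont_iter (j := j) (j + 1) hf
  rw [ip, ← mass_smul, ← mass_smul, ← mass_minus (by fun_prop) (by fun_prop),
    ← mass_plus (by fun_prop) (by fun_prop), ← mass_smul]
  congr 1
  funext s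
  rw [Phi, Real.log_exp]
  ring

lemma FF_Phi (hm : 0 < m) (hf : ContDiff ℝ ∞ f) : FF j β (Phi j m β f) =
    ip j (Phi j m β f) ((K j)^[j + 1] f) + c0 j m β f * m -
      ip j (Phi j m β f) ((K j)^[j + 1] (Phi j m β f)) / 2 := by
  have h := Phi_adm (j := j) (β := β) hm hf
  rw [FF, mass_log_Phi hf.continuous h.smooth.continuous, h.total,
    mul_div_cancel_left₀ _ cj_pos.ne']
  ring

lemma Adm.cont_log (hf : Adm j m f) : Continuous fun s => Real.log (f s) :=
  hf.smooth.continuous.log fun s => (hf.pos s).ne'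

lemma step (hm : 0 < m) (hf : Adm j m f) :
    HH j f (Phi j m β f) / cj j ≤ FF j β f - FF j β (Phi j m β f) := by
  have hg := Phi_adm (j := j) (β := β) hm hf.smooth
  have e1 := FF_Phi (j := j) (β := β) hm hf.smooth
  have cf := hf.smooth.continuous
  have e2 := mass_log_Phi (j := j) (m := m) (β := β) cf cf
  generalize Phi j m β f = g at *
  have cg := hg.smooth.continuous
  have l1 := hf.cont_log
  have l2 := hg.cont_log
  have k1 := cont_iter (j := j) (j + 1) cf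
  have k2 := cont_iter (j := j) (j + 1) cg
  have p := ip_pos (j := j) (j + 1) (cf.fun_sub cg)
  have e3 : ip j (fun s => f s - g s) ((K j)^[j + 1] fun s => f s - g s) =
      ip j f ((K j)^[j + 1] f) - ip j f ((K j)^[j + 1] g) -
        (ip j g ((K j)^[j + 1] f) - ip j g ((K j)^[j + 1] g)) := by
    rw [iter_sub _ cf cg]
    unfold ip
    rw [← mass_minus (by fun_prop) (by fun_prop), ← mass_minus (by fun_prop) (by fun_prop),
      ← mass_minus (by fun_prop) (by fun_prop)]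
    congr 1
    funext s
    ring
  rw [e3, ip_iter _ cf cg, ip_comm ((K j)^[j + 1] f)] at p
  rw [HH, mass_plus (by fun_prop) cg, mass_minus (by fun_prop) cf,
    mass_minus (by fun_prop) (by fun_prop), e2, e1, hf.total, hg.total, FF, sub_add_cancel, sub_div,
    mul_div_cancel_left₀ _ cj_pos.ne']
  linarith

lemma hell {a b : ℝ} (ha : 0 < a) (hb : 0 < b) :
    (√a - √b) ^ 2 ≤ a * Real.log a - a * Real.log b - a + b := by
  have x0 := Real.sqrt_pos.2 ha
  have y0 := Real.sqrt_pos.2 hb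
  have h1 := Real.log_le_sub_one_of_pos (div_pos y0 x0)
  rw [Real.log_div y0.ne' x0.ne', Real.log_sqrt ha.le, Real.log_sqrt hb.le] at h1
  have h2 := Real.sq_sqrt ha.le
  have h3 := Real.sq_sqrt hb.le
  have h4 : a * (√b / √a) = √a * √b := by
    field_simp
    exact h2.symm
  nlinarith [mul_le_mul_of_nonneg_left h1 ha.le]

lemma HH_nonneg (hf : Adm j m f) (hg : Adm j m g) : 0 ≤ HH j f g :=
  mass_nonneg' le_rfl (by norm_num) fun s _ => (sq_nonneg _).trans (hell (hf.pos s) (hg.pos s))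

lemma sq_le_HH (hf : Adm j m f) (hg : Adm j m g) {B : ℝ} (h1 : ∀ s ∈ Icc (0 : ℝ) 4, f s ≤ B)
    (h2 : ∀ s ∈ Icc (0 : ℝ) 4, g s ≤ B) :
    mass j (fun s => (f s - g s) ^ 2) 0 4 ≤ 4 * B * HH j f g := by
  have cf := hf.smooth.continuous
  have cg := hg.smooth.continuous
  have l1 := hf.cont_log
  have l2 := hg.cont_log
  rw [HH, ← mass_smul]
  refine mass_le_mass (by fun_prop) (by fun_prop) le_rfl (by norm_num) fun s hs => ?_
  have a1 := Real.sq_sqrt (hf.pos s).le
  have a2 := Real.sq_sqrt (hg.pos s).le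
  have a3 : (√(f s) + √(g s)) ^ 2 ≤ 4 * B := by
    nlinarith [sq_nonneg (√(f s) - √(g s)), h1 s hs, h2 s hs]
  calc (f s - g s) ^ 2 = (√(f s) + √(g s)) ^ 2 * (√(f s) - √(g s)) ^ 2 := by
        rw [← mul_pow, ← sq_sub_sq, a1, a2]
    _ ≤ _ := mul_le_mul a3 (hell (hf.pos s) (hg.pos s)) (sq_nonneg _) ((sq_nonneg _).trans a3)

lemma pow_log_sq (hj : 2 ≤ j) {s : ℝ} (hs : s ∈ Ioo (0 : ℝ) 4) :
    s ^ j * Real.log (4 / s) ^ 2 ≤ 4 ^ j := by
  obtain ⟨k, rfl⟩ : ∃ k, j = k + 2 := ⟨j - 2, by omega⟩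
  have s0 := hs.1
  have h1 : s * Real.log (4 / s) ≤ 4 := by
    have := mul_le_mul_of_nonneg_left (Real.log_le_self (show 0 ≤ 4 / s by positivity)) s0.le
    rwa [mul_div_cancel₀ _ s0.ne'] at this
  have h2 := mul_nonneg s0.le (log_nonneg' ⟨s0.le, hs.2.le⟩)
  calc _ = s ^ k * (s * Real.log (4 / s)) ^ 2 := by ring
    _ ≤ 4 ^ k * 4 ^ 2 := by gcongr; exact hs.2.le
    _ = _ := by ring

lemma ell_abs_le (hj : 2 ≤ j) (hh : Continuous h) {δ : ℝ} (hδ : 0 < δ) :
    ell j (fun s => |h s|) ≤ mass j (fun s => h s ^ 2) 0 4 / δ + δ * 4 ^ (j + 1) := by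
  have c : Continuous fun s => s ^ j * h s ^ 2 / δ := by fun_prop
  have := intervalIntegral.integral_mono_on_of_le_Ioo (show (0 : ℝ) ≤ 4 by norm_num)
    (int_ell (j := j) (by omega) hh.abs 0 4) ((c.intervalIntegrable 0 4).add
      (intervalIntegrable_const (c := δ * 4 ^ j))) fun s hs => by
      have h1 := mul_le_mul_of_nonneg_left (pow_log_sq hj hs) hδ.le
      have h2 : |h s| * Real.log (4 / s) ≤ h s ^ 2 / δ + δ * Real.log (4 / s) ^ 2 := by
        rw [← sq_abs (h s), ← sub_le_iff_le_add, le_div_iff₀ hδ]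
        nlinarith [sq_nonneg (|h s| - δ * Real.log (4 / s)), sq_nonneg |h s|,
          sq_nonneg (δ * Real.log (4 / s))]
      have h3 := mul_le_mul_of_nonneg_left h2 (pow_nonneg hs.1.le j)
      rw [mul_div_assoc]
      linarith
  rw [intervalIntegral.integral_add (c.intervalIntegrable 0 4) intervalIntegrable_const,
    intervalIntegral.integral_div, intervalIntegral.integral_const, smul_eq_mul] at this
  refine this.trans_eq ?_
  rw [mass]
  ring

lemma young (hj : 1 ≤ j) {e : ℝ} (he : e < j + 1) : ∃ C : ℝ, 0 ≤ C ∧ ∀ {m : ℝ} {f : ℝ → ℝ},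
    Adm j m f → e * ell j f ≤ mass j (fun s => f s * Real.log (f s)) 0 4 + C := by
  have i := (intervalIntegral.intervalIntegrable_rpow' (a := 0) (b := 4) (r := j - e)
    (by linarith)).const_mul ((4 : ℝ) ^ e)
  refine ⟨∫ s in (0 : ℝ)..4, 4 ^ e * s ^ (j - e), intervalIntegral.integral_nonneg (by norm_num)
    fun s hs => mul_nonneg (by positivity) (Real.rpow_nonneg hs.1 _), fun {m f} hf => ?_⟩
  have cf := hf.smooth.continuous
  have l1 := hf.cont_log
  have c : Continuous fun s => s ^ j * (f s * Real.log (f s)) := by fun_prop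
  rw [ell, mass, mass, ← intervalIntegral.integral_const_mul,
    ← intervalIntegral.integral_add (c.intervalIntegrable _ _) i]
  refine intervalIntegral.integral_mono_on_of_le_Ioo (show (0 : ℝ) ≤ 4 by norm_num)
    ((int_ell hj cf 0 4).const_mul _) ((c.intervalIntegrable _ _).add i) fun s hs => ?_
  have s0 := hs.1
  have a0 := hf.pos s
  have h1 := Real.add_one_le_exp (e * Real.log (4 / s) - Real.log (f s))
  rw [Real.exp_sub, Real.exp_log a0, le_div_iff₀ a0] at h1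
  have h2 : s ^ j * Real.exp (e * Real.log (4 / s)) = 4 ^ e * s ^ (j - e) := by
    rw [mul_comm e, ← Real.rpow_def_of_pos (by positivity), Real.div_rpow (by norm_num) s0.le,
      Real.rpow_sub s0, Real.rpow_natCast]
    ring
  have h3 := mul_le_mul_of_nonneg_left h1 (pow_nonneg s0.le j)
  nlinarith [mul_pos (pow_pos s0 j) a0]

lemma lower (hj : 1 ≤ j) (hθ : om j * m < 1) : ∃ C : ℝ, 0 ≤ C ∧ ∀ {β : ℝ} {f : ℝ → ℝ},
    0 ≤ β → Adm j m f → (1 - om j * m) / 4 * ell j f ≤ FF j β f + C := by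
  have n0 : (0 : ℝ) < j + 1 := by positivity
  obtain ⟨C, hC, h⟩ := young hj (e := (j + 1) * ((1 + om j * m) / 2)) (by nlinarith)
  refine ⟨C / cj j, div_nonneg hC cj_pos.le, fun {β f} hβ hf => ?_⟩
  have cf := hf.smooth.continuous
  have h1 := ip_G_le hj cf (fun s _ => (hf.pos s).le) cf fun s _ => (hf.pos s).le
  have h2 := mul_nonneg hβ (mass_nonneg' (j := j) (f := fun s => s * f s) le_rfl
    (show (0 : ℝ) ≤ 4 by norm_num) fun s hs => mul_nonneg hs.1 (hf.pos s).le)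
  have h3 := div_le_div_of_nonneg_right (h hf) (cj_pos (j := j)).le
  have e : (j + 1) * ((1 + om j * m) / 2) * ell j f / cj j = (1 + om j * m) / 4 * ell j f := by
    unfold cj
    push_cast
    field_simp
    ring
  rw [e, add_div _ C] at h3
  rw [hf.total] at h1
  unfold FF
  linarith

lemma c0_bound (hm : 0 < m) (hβ : 1 ≤ β) (hf : Continuous f) {L : ℝ}
    (h : ∀ s ∈ Icc (0 : ℝ) 4, 0 ≤ (K j)^[j + 1] f s ∧ (K j)^[j + 1] f s ≤ L) :
    -(|Real.log m| + 1 + L) ≤ c0 j m β f ∧ c0 j m β f ≤ |Real.log m| + 2 + Real.log β := by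
  have k := cont_iter (j := j) (j + 1) hf
  have c : Continuous fun s => Real.exp (cj j * ((K j)^[j + 1] f s - β * s)) := by fun_prop
  have Z0 := Zf_pos (j := j) (β := β) hf
  have β0 : 0 < β := by linarith
  have c2 := two_le_cj (j := j)
  have c0' := cj_pos (j := j)
  have l0 := Real.log_nonneg hβ
  have l2 := Real.log_two_lt_d9
  have a1 := le_abs_self (Real.log m)
  have a2 := neg_abs_le (Real.log m)
  have a3 : |Real.log m| ≤ cj j * |Real.log m| := le_mul_of_one_le_left (abs_nonneg _) (by linarith)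
  have n1 : cj j = 2 * (j + 1) := by unfold cj; push_cast; ring
  have n0 : (0 : ℝ) < j + 1 := by positivity
  have h1 : Zf j β f ≤ 2 ^ (2 * (j + 1)) * Real.exp (cj j * L) := by
    refine (mass_const_le c le_rfl (by norm_num) le_rfl (Real.exp_pos (cj j * L)).le fun s hs =>
      Real.exp_le_exp.2 (mul_le_mul_of_nonneg_left ?_ c0'.le)).trans_eq (by rw [pow_mul]; ring)
    linarith [(h s hs).2, mul_nonneg β0.le hs.1]
  have h2 : (2 * β)⁻¹ ^ (j + 1) * Real.exp (-cj j) ≤ Zf j β f := by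
    have b1 : β⁻¹ ≤ 1 := inv_le_one_of_one_le₀ hβ
    have b2 : (2 * β)⁻¹ = β⁻¹ / 2 := by field_simp
    have b3 : 0 < β⁻¹ := inv_pos.2 β0
    refine le_trans ?_ (mass_part c (fun s _ => (Real.exp_pos _).le) (u := β⁻¹ / 2) (v := β⁻¹)
      (by linarith) (by linarith) (by linarith))
    have := intervalIntegral.integral_mono_on (μ := volume) (a := β⁻¹ / 2) (b := β⁻¹)
      (f := fun _ => (β⁻¹ / 2) ^ j * Real.exp (-cj j))
      (g := fun s => s ^ j * Real.exp (cj j * ((K j)^[j + 1] f s - β * s))) (by linarith)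
      intervalIntegrable_const (Continuous.intervalIntegrable (by fun_prop) _ _) fun s hs => by
        have s1 : β * s ≤ 1 := by
          have := mul_le_mul_of_nonneg_left hs.2 β0.le
          rwa [mul_inv_cancel₀ β0.ne'] at this
        have s2 := (h s ⟨by linarith [hs.1], by linarith [hs.2]⟩).1
        exact mul_le_mul (pow_le_pow_left₀ (by linarith) hs.1 _)
          (Real.exp_le_exp.2 (by nlinarith)) (Real.exp_pos _).le (pow_nonneg (by linarith [hs.1]) _)
    rw [intervalIntegral.integral_const, smul_eq_mul] at this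
    refine le_trans (le_of_eq ?_) this
    rw [b2]
    ring
  have g1 := Real.log_le_log Z0 h1
  have g2 := Real.log_le_log (by positivity) h2
  rw [Real.log_mul (by positivity) (Real.exp_pos _).ne', Real.log_exp, Real.log_pow] at g1 g2
  rw [Real.log_inv, Real.log_mul two_ne_zero β0.ne'] at g2
  push_cast at g1 g2
  rw [c0, Real.log_div hm.ne' Z0.ne', le_div_iff₀ c0', div_le_iff₀ c0']
  constructor
  · nlinarith
  · nlinarith

theorem approx (hj : 2 ≤ j) (hm : 0 < m) (hθ : om j * m < 1) : ∃ C : ℝ, 0 ≤ C ∧ ∀ β, 1 ≤ β →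
    ∀ ε, 0 < ε → ∃ (W f : ℝ → ℝ) (c₀ : ℝ), ContDiff ℝ ∞ W ∧ AntitoneOn W (Icc 0 4) ∧
      (∀ s ∈ Icc (0 : ℝ) 4, 0 ≤ W s ∧ W s ≤ C * (1 + Real.log β)) ∧
      (∀ s ∈ Ioc (0 : ℝ) 4, W s ≤ Real.log (4 / s)) ∧ |c₀| ≤ C * (1 + Real.log β) ∧
      (f = fun s => Real.exp (cj j * (W s - β * s + c₀))) ∧ mass j f 0 4 = m ∧
      ell j f ≤ C * (1 + Real.log β) ∧ ∀ s ∈ Icc (0 : ℝ) 4, |W s - (K j)^[j + 1] f s| ≤ ε := by
  have hj1 : 1 ≤ j := by omega
  obtain ⟨C₁, hC₁, hl⟩ := lower hj1 hθ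
  obtain ⟨q, q0, eq⟩ : ∃ q, 0 < q ∧ q * ((1 - om j * m) / 4) = 1 :=
    ⟨((1 - om j * m) / 4)⁻¹, inv_pos.2 (by linarith), inv_mul_cancel₀ (by linarith)⟩
  obtain ⟨a, ea⟩ : ∃ a, a = |Real.log m| + 2 := ⟨_, rfl⟩
  have a0 : 2 ≤ a := by linarith [abs_nonneg (Real.log m)]
  obtain ⟨D, eD⟩ : ∃ D, D = q * (a * m + 1 + C₁) := ⟨_, rfl⟩
  have D0 : 0 ≤ D := by rw [eD]; positivity
  refine ⟨D + a, by linarith, fun β hβ ε hε => ?_⟩
  have l0 := Real.log_nonneg hβ
  have β0 : 0 ≤ β := by linarith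
  obtain ⟨L, eL⟩ : ∃ L, L = D * (1 + Real.log β) := ⟨_, rfl⟩
  have nn : ∀ {f}, Adm j m f → ∀ s ∈ Icc (0 : ℝ) 4, 0 ≤ f s := fun hf s _ => (hf.pos s).le
  have z : (K j)^[j + 1] (fun _ => (0 : ℝ)) = fun _ => 0 := by
    simpa only [sub_self] using iter_sub (j := j) (j + 1) (f := fun _ => (0 : ℝ))
      (g := fun _ => (0 : ℝ)) continuous_const continuous_const
  have g0 := Phi_adm (j := j) (β := β) (f := fun _ => 0) hm contDiff_const
  have F0 : FF j β (Phi j m β fun _ => 0) ≤ a * m * (1 + Real.log β) := by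
    have h1 := (c0_bound (j := j) (f := fun _ => 0) (L := 0) hm hβ continuous_const
      fun s _ => by simp [z]).2
    have h2 := ip_pos (j := j) (j + 1) g0.smooth.continuous
    rw [FF_Phi hm contDiff_const, z, show ip j (Phi j m β fun _ => 0) (fun _ => 0) = 0 by
      simp [ip, mass]]
    nlinarith [mul_le_mul_of_nonneg_right h1 hm.le, mul_nonneg (mul_nonneg hm.le l0)
      (show 0 ≤ a - 1 by linarith)]
  have key : ∀ {f}, Adm j m f → FF j β f ≤ a * m * (1 + Real.log β) + 1 → ell j f ≤ L ∧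
      (∀ s ∈ Icc (0 : ℝ) 4, 0 ≤ (K j)^[j + 1] f s ∧ (K j)^[j + 1] f s ≤ L) ∧
      |c0 j m β f| ≤ (D + a) * (1 + Real.log β) ∧
      ∀ s ∈ Icc (0 : ℝ) 4, Phi j m β f s ≤ Real.exp (cj j * (L + a + Real.log β)) := by
    intro f hf hF
    have cf := hf.smooth.continuous
    have h1 : ell j f ≤ L := by
      have h2 := mul_le_mul_of_nonneg_left ((hl β0 hf).trans (add_le_add_left hF C₁)) q0.le
      rw [← mul_assoc, eq, one_mul] at h2
      rw [eL, eD]
      nlinarith [mul_nonneg q0.le (mul_nonneg (show 0 ≤ 1 + C₁ by linarith) l0)]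
    have h2 : ∀ s ∈ Icc (0 : ℝ) 4, 0 ≤ (K j)^[j + 1] f s ∧ (K j)^[j + 1] f s ≤ L := fun s hs =>
      ⟨iter_nonneg _ cf (nn hf) s hs, (G_le_ell hj1 cf (nn hf) s hs).trans h1⟩
    have h3 := c0_bound hm hβ cf h2
    refine ⟨h1, h2, abs_le.2 ⟨by nlinarith [h3.1], by nlinarith [h3.2]⟩, fun s hs =>
      Real.exp_le_exp.2 (mul_le_mul_of_nonneg_left ?_ cj_pos.le)⟩
    linarith [(h2 s hs).2, h3.2, mul_nonneg β0 hs.1]
  obtain ⟨B, eB⟩ : ∃ B, B = Real.exp (cj j * (L + a + Real.log β)) := ⟨_, rfl⟩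
  have B0 : 0 < B := eB ▸ Real.exp_pos _
  rw [← eB] at key
  obtain ⟨δ, δ0, eδ⟩ : ∃ δ, 0 < δ ∧ δ * 4 ^ (j + 1) = ε / 2 :=
    ⟨ε / 2 / 4 ^ (j + 1), by positivity, by field_simp⟩
  have c0' := cj_pos (j := j)
  obtain ⟨η, η0, η1, η2⟩ : ∃ η, 0 < η ∧ η ≤ 1 ∧ 4 * B * cj j * η ≤ ε / 2 * δ :=
    ⟨min 1 (ε / 2 * δ / (4 * B * cj j)), by positivity, min_le_left _ _,
      (le_div_iff₀' (by positivity)).1 (min_le_right _ _)⟩
  have bd : BddBelow (FF j β '' {f | Adm j m f}) := ⟨-C₁, by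
    rintro _ ⟨f, hf, rfl⟩
    linarith [hl β0 hf, mul_nonneg (show 0 ≤ (1 - om j * m) / 4 by linarith)
      (ell_nonneg (j := j) (nn hf))]⟩
  obtain ⟨_, ⟨f₀, h₀, rfl⟩, hlt⟩ := exists_lt_of_csInf_lt (s := FF j β '' {f | Adm j m f})
    ⟨_, _, g0, rfl⟩ (lt_add_of_pos_right _ η0)
  have I0 := csInf_le bd ⟨_, g0, rfl⟩
  have h₁ := Phi_adm (j := j) (β := β) hm h₀.smooth
  have h₂ := Phi_adm (j := j) (β := β) hm h₁.smooth
  have I2 := csInf_le bd ⟨_, h₂, rfl⟩
  have s1 := (div_nonneg (HH_nonneg h₀ h₁) c0'.le).trans (step hm h₀)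
  have s2 := step (β := β) hm h₁
  have s3 := (div_nonneg (HH_nonneg h₁ h₂) c0'.le).trans s2
  obtain ⟨-, -, -, k0⟩ := key h₀ (by linarith)
  obtain ⟨-, k1, k2, k3⟩ := key h₁ (by linarith)
  obtain ⟨k4, -⟩ := key h₂ (by linarith)
  have c1 := h₁.smooth.continuous
  have c2 := h₂.smooth.continuous
  have LL : L ≤ (D + a) * (1 + Real.log β) := by rw [eL]; nlinarith
  refine ⟨_, _, _, smooth_iter _ h₁.smooth, G_anti c1 (nn h₁),
    fun s hs => ⟨(k1 s hs).1, (k1 s hs).2.trans LL⟩, fun s hs => (G_le_log hj1 c1 (nn h₁) s hs).trans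
      (mul_le_of_le_one_left (log_nonneg' ⟨hs.1.le, hs.2⟩) (h₁.total.symm ▸ hθ.le)), k2, rfl,
    h₂.total, k4.trans LL, fun s hs => (iter_abs _ c1 c2 s hs).trans ((G_le_ell hj1
      (c1.fun_sub c2).abs (fun _ _ => abs_nonneg _) s hs).trans
      ((ell_abs_le hj (c1.fun_sub c2) δ0).trans ?_))⟩
  have t1 := sq_le_HH h₁ h₂ k0 k3
  have t2 : HH j (Phi j m β f₀) (Phi j m β (Phi j m β f₀)) ≤ η * cj j :=
    (div_le_iff₀ c0').1 (by linarith)
  have t3 := mul_le_mul_of_nonneg_left t2 (show 0 ≤ 4 * B by positivity)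
  rw [eδ, ← le_sub_iff_add_le, div_le_iff₀ δ0]
  linarith

end Pool.Agent.Lib.MP_af5b7f_an.P
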